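import Mathlib

set_option autoImplicit false

namespace Pool.Agent.H143Z.Vir

open AddMonoidAlgebra

/-- Group algebra of an abelian group. -/
abbrev RG (G : Type) : Type := AddMonoidAlgebra ℂ G

section gen
variable {G : Type} [AddCommGroup G]

/-- monomial -/
noncomputable def mo (e : G) : RG G := single e 1

lemma mo_add (e e' : G) : mo (e + e') = mo e * mo e' := by
  simp [mo, single_mul_single]

lemma mo_zero : mo (0 : G) = 1 := rfl

/-- linear map from values on monomials -/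
noncomputable def lin {N : Type} [AddCommMonoid N] [Module ℂ N] (f : G → N) : RG G →ₗ[ℂ] N :=
  (AddMonoidAlgebra.basis G ℂ).constr ℂ f

lemma lin_mo {N : Type} [AddCommMonoid N] [Module ℂ N] (f : G → N) (e : G) :
    lin f (mo e) = f e := by
  have : mo e = AddMonoidAlgebra.basis G ℂ e := by simp [mo]
  rw [this, lin, Module.Basis.constr_basis]

lemma lext {N : Type} [AddCommMonoid N] [Module ℂ N] {f g : RG G →ₗ[ℂ] N}
    (h : ∀ e, f (mo e) = g (mo e)) : f = g := by
  apply (AddMonoidAlgebra.basis G ℂ).ext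
  intro e
  have : mo e = AddMonoidAlgebra.basis G ℂ e := by simp [mo]
  rw [← this]; exact h e

lemma ind {P : RG G → Prop} (h1 : ∀ e, P (mo e)) (h0 : P 0) (hadd : ∀ x y, P x → P y → P (x + y))
    (hs : ∀ (a : ℂ) x, P x → P (a • x)) (x : RG G) : P x := by
  induction x using AddMonoidAlgebra.induction_linear with
  | zero => exact h0
  | add f g hf hg => exact hadd f g hf hg
  | single m r =>
    have : (single m r : RG G) = r • mo m := by simp [mo]
    rw [this]; exact hs _ _ (h1 m)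

/-- algebra map from values on monomials -/
noncomputable def ah {B : Type} [CommRing B] [Algebra ℂ B] (f : G → B) (h0 : f 0 = 1)
    (h1 : ∀ a b, f (a + b) = f a * f b) : RG G →ₐ[ℂ] B :=
  AddMonoidAlgebra.lift ℂ B G
    { toFun := fun m => f m.toAdd
      map_one' := h0
      map_mul' := fun a b => h1 _ _ }

lemma ah_mo {B : Type} [CommRing B] [Algebra ℂ B] (f : G → B) (h0 : f 0 = 1)
    (h1 : ∀ a b, f (a + b) = f a * f b) (e : G) : ah f h0 h1 (mo e) = f e := by
  simp [ah, mo]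

/-- Euler derivation -/
noncomputable def der (l : G →+ ℤ) : RG G →ₗ[ℂ] RG G := lin fun e => (l e : ℂ) • mo e

lemma der_mo (l : G →+ ℤ) (e : G) : der l (mo e) = (l e : ℂ) • mo e := lin_mo _ _

lemma der_mul (l : G →+ ℤ) (a b : RG G) : der l (a * b) = der l a * b + a * der l b := by
  induction a using ind with
  | h0 => simp
  | hadd x y hx hy => simp only [add_mul, map_add, hx, hy]; ring
  | hs c x hx => simp only [smul_mul_assoc, map_smul, hx, smul_add]
  | h1 e =>
    induction b using ind with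
    | h0 => simp
    | hadd x y hx hy => simp only [mul_add, map_add, hx, hy]; ring
    | hs c x hx => simp only [mul_smul_comm, map_smul, hx, smul_add]
    | h1 e' =>
      rw [← mo_add, der_mo, der_mo, der_mo, map_add, smul_mul_assoc, mul_smul_comm, ← mo_add,
        ← add_smul]
      push_cast
      rfl

lemma der_one (l : G →+ ℤ) : der l 1 = 0 := by
  rw [← mo_zero, der_mo]; simp

lemma der_alg (l : G →+ ℤ) (c : ℂ) : der l (algebraMap ℂ (RG G) c) = 0 := by
  rw [Algebra.algebraMap_eq_smul_one, map_smul, der_one, smul_zero]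

lemma der_pow_mul (l : G →+ ℤ) (g K : RG G) (m : ℕ) :
    der l (g ^ (m + 1) * K) = g ^ m * (((m + 1 : ℕ) : RG G) * der l g * K + g * der l K) := by
  induction m generalizing K with
  | zero => simp [der_mul]
  | succ m ih =>
    have : g ^ (m + 1 + 1) * K = g ^ (m + 1) * (g * K) := by ring
    rw [this, ih, der_mul]
    push_cast
    ring

lemma der_dvd_pow (l : G →+ ℤ) {h a : RG G} {m : ℕ} (H : h ^ (m + 1) ∣ a) : h ^ m ∣ der l a := by
  obtain ⟨K, rfl⟩ := H
  rw [der_pow_mul]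
  exact dvd_mul_right _ _

/-- kernel of a derivation -/
noncomputable def kerD (l : G →+ ℤ) : Subalgebra ℂ (RG G) where
  carrier := {a | der l a = 0}
  mul_mem' := by
    intro a b ha hb
    have ha' : der l a = 0 := ha
    have hb' : der l b = 0 := hb
    show der l (a * b) = 0
    rw [der_mul, ha', hb']; simp
  add_mem' := by
    intro a b ha hb
    have ha' : der l a = 0 := ha
    have hb' : der l b = 0 := hb
    show der l (a + b) = 0
    rw [map_add, ha', hb']; simp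
  algebraMap_mem' := der_alg l

lemma der_dvd {l : G →+ ℤ} {h a : RG G} (hh : h ∈ kerD l) (H : h ∣ a) : h ∣ der l a := by
  obtain ⟨K, rfl⟩ := H
  have : der l h = 0 := hh
  rw [der_mul, this, zero_mul, zero_add]
  exact dvd_mul_right _ _

lemma der_mul_ker {l : G →+ ℤ} {h : RG G} (hh : h ∈ kerD l) (a : RG G) :
    der l (h * a) = h * der l a := by
  have : der l h = 0 := hh
  rw [der_mul, this, zero_mul, zero_add]

end gen

/-- variables: `inl i` is `t_i`, `inr k` is `x_k` -/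
abbrev Va : Type := ℕ ⊕ ℕ
abbrev Ex : Type := Va → ℤ
abbrev R : Type := RG Ex

noncomputable def X (v : Va) : R := mo (Pi.single v 1)
noncomputable abbrev t (i : ℕ) : R := X (Sum.inl i)
noncomputable abbrev x (k : ℕ) : R := X (Sum.inr k)
noncomputable abbrev cst (a : ℂ) : R := algebraMap ℂ R a

def pr (v : Va) : Ex →+ ℤ := Pi.evalAddMonoidHom (fun _ => ℤ) v

@[simp] lemma pr_apply (v : Va) (e : Ex) : pr v e = e v := rfl

/-- exponent map of the substitution `t_i := x_k` -/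
def subE (i k : ℕ) (e : Ex) : Ex :=
  e + Pi.single (Sum.inr k) (e (Sum.inl i)) - Pi.single (Sum.inl i) (e (Sum.inl i))

lemma subE_add (i k : ℕ) (e e' : Ex) : subE i k (e + e') = subE i k e + subE i k e' := by
  unfold subE
  simp only [Pi.add_apply, Pi.single_add]
  abel

lemma subE_inl (i k : ℕ) (e : Ex) {i' : ℕ} (h : i' ≠ i) : subE i k e (Sum.inl i') = e (Sum.inl i') := by
  simp [subE, h]

lemma subE_inr (i k : ℕ) (e : Ex) (k' : ℕ) :
    subE i k e (Sum.inr k') = e (Sum.inr k') + if k' = k then e (Sum.inl i) else 0 := by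
  simp [subE, Pi.single_apply]

noncomputable def sub (i k : ℕ) : R →ₐ[ℂ] R :=
  ah (fun e => mo (subE i k e)) (by simp [subE, mo_zero]) (fun a b => by rw [subE_add, mo_add])

lemma sub_mo (i k : ℕ) (e : Ex) : sub i k (mo e) = mo (subE i k e) := ah_mo _ _ _ _

lemma sub_single_self (i k : ℕ) (n : ℤ) :
    sub i k (mo (Pi.single (Sum.inl i) n)) = mo (Pi.single (Sum.inr k) n) := by
  rw [sub_mo]; congr 1; simp [subE]

lemma sub_single_ne (i k : ℕ) {v : Va} (h : v ≠ Sum.inl i) (n : ℤ) :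
    sub i k (mo (Pi.single v n)) = mo (Pi.single v n) := by
  rw [sub_mo]; congr 1; simp [subE, Pi.single_eq_of_ne h.symm]

@[simp] lemma sub_t_self (i k : ℕ) : sub i k (t i) = x k := sub_single_self i k 1
lemma sub_t_ne (i k : ℕ) {i' : ℕ} (h : i' ≠ i) : sub i k (t i') = t i' :=
  sub_single_ne i k (by simpa using h) 1
@[simp] lemma sub_x (i k k' : ℕ) : sub i k (x k') = x k' := sub_single_ne i k (by simp) 1

/-- the functional of the first order operator -/
def dl (i k : ℕ) : Ex →+ ℤ := pr (Sum.inl i) - pr (Sum.inr k)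

@[simp] lemma dl_apply (i k : ℕ) (e : Ex) : dl i k e = e (Sum.inl i) - e (Sum.inr k) := rfl

lemma t_ker_dl {i k i' : ℕ} (h : i' ≠ i) : t i' ∈ kerD (dl i k) := by
  show der _ (mo _) = 0
  rw [der_mo]; simp [h.symm]

lemma x_ker_dl {i k k' : ℕ} (h : k' ≠ k) : x k' ∈ kerD (dl i k) := by
  show der _ (mo _) = 0
  rw [der_mo]; simp [h.symm]

lemma der_dl_t (i k : ℕ) : der (dl i k) (t i) = t i := by
  show der _ (mo _) = mo _
  rw [der_mo]; simp

lemma t_ker_pr {i i' : ℕ} (h : i' ≠ i) : t i' ∈ kerD (pr (Sum.inl i)) := by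
  show der _ (mo _) = 0
  rw [der_mo]; simp [h.symm]

lemma x_ker_pr (i k' : ℕ) : x k' ∈ kerD (pr (Sum.inl i)) := by
  show der _ (mo _) = 0
  rw [der_mo]; simp

lemma der_pr_t (i : ℕ) : der (pr (Sum.inl i)) (t i) = t i := by
  show der _ (mo _) = mo _
  rw [der_mo]; simp

noncomputable def E (i k : ℕ) : R →ₗ[ℂ] R := (sub i k).toLinearMap ∘ₗ der (dl i k)

lemma E_apply (i k : ℕ) (a : R) : E i k a = sub i k (der (dl i k) a) := rfl

lemma E_mo (i k : ℕ) (e : Ex) :
    E i k (mo e) = ((e (Sum.inl i) - e (Sum.inr k) : ℤ) : ℂ) • mo (subE i k e) := by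
  rw [E_apply, der_mo, map_smul, sub_mo, dl_apply]

/-- constant term in `x_k` -/
noncomputable def CT (k : ℕ) : R →ₗ[ℂ] R := lin fun e => if e (Sum.inr k) = 0 then mo e else 0

lemma CT_mo (k : ℕ) (e : Ex) : CT k (mo e) = if e (Sum.inr k) = 0 then mo e else 0 := lin_mo _ _

/-- elements free of `x_k` -/
noncomputable def Fr (k : ℕ) : Subalgebra ℂ R where
  carrier := {a | ∀ b, CT k (a * b) = a * CT k b}
  mul_mem' := by
    intro a a' ha ha' b
    rw [mul_assoc, ha, ha', mul_assoc]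
  add_mem' := by
    intro a a' ha ha' b
    rw [add_mul, map_add, ha, ha', add_mul]
  algebraMap_mem' := by
    intro c b
    rw [← Algebra.smul_def, map_smul, Algebra.smul_def]

lemma mo_Fr {k : ℕ} {e : Ex} (h : e (Sum.inr k) = 0) : mo e ∈ Fr k := by
  intro b
  induction b using ind with
  | h0 => simp
  | hadd x y hx hy => simp only [mul_add, map_add, hx, hy]
  | hs c x hx => simp only [mul_smul_comm, map_smul, hx]
  | h1 e' =>
    rw [← mo_add, CT_mo, CT_mo, Pi.add_apply, h, zero_add]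
    split_ifs
    · rw [mo_add]
    · simp

lemma t_Fr (i k : ℕ) : t i ∈ Fr k := mo_Fr (by simp)
lemma x_Fr {k k' : ℕ} (h : k' ≠ k) : x k' ∈ Fr k := mo_Fr (by simp [h.symm])

lemma CT_dvd {k : ℕ} {h a : R} (hh : h ∈ Fr k) (H : h ∣ a) : h ∣ CT k a := by
  obtain ⟨K, rfl⟩ := H
  rw [hh K]
  exact dvd_mul_right _ _

/-- the third order operator -/
noncomputable def th3 (i : ℕ) : R →ₗ[ℂ] R :=
  der (pr (Sum.inl i)) ∘ₗ der (pr (Sum.inl i)) ∘ₗ der (pr (Sum.inl i)) - der (pr (Sum.inl i))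

lemma th3_apply (i : ℕ) (a : R) : th3 i a =
    der (pr (Sum.inl i)) (der (pr (Sum.inl i)) (der (pr (Sum.inl i)) a)) - der (pr (Sum.inl i)) a :=
  rfl

noncomputable def C (c : ℂ) (i k : ℕ) : R →ₗ[ℂ] R :=
  (c / 12) • (CT k ∘ₗ (sub i k).toLinearMap ∘ₗ th3 i)

lemma C_apply (c : ℂ) (i k : ℕ) (a : R) : C c i k a = (c / 12) • CT k (sub i k (th3 i a)) := rfl

/-- the central coefficient -/
noncomputable def gam (c : ℂ) (m : ℤ) : ℂ := c * ((m : ℂ) ^ 3 - (m : ℂ)) / 12

lemma C_mo (c : ℂ) (i k : ℕ) (e : Ex) : C c i k (mo e) =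
    (if e (Sum.inl i) + e (Sum.inr k) = 0 then gam c (e (Sum.inl i)) else 0) • mo (subE i k e) := by
  rw [C_apply, th3_apply]
  simp only [der_mo, map_smul, map_sub, sub_mo, CT_mo, pr_apply, subE_inr, if_true]
  rw [add_comm (e (Sum.inr k))]
  split_ifs
  · simp only [smul_smul, ← sub_smul]
    congr 1
    unfold gam; ring
  · simp

lemma C_dvd {c : ℂ} {i k : ℕ} {h a : R} (h1 : h ∈ kerD (pr (Sum.inl i))) (h2 : sub i k h = h)
    (h3 : h ∈ Fr k) (H : h ∣ a) : h ∣ C c i k a := by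
  rw [C_apply, Algebra.smul_def]
  apply Dvd.dvd.mul_left
  apply CT_dvd h3
  rw [← h2]
  apply map_dvd
  rw [th3_apply]
  exact dvd_sub (der_dvd h1 (der_dvd h1 (der_dvd h1 H))) (der_dvd h1 H)

lemma E_dvd {i k : ℕ} {h a : R} (h1 : h ∈ kerD (dl i k)) (h2 : sub i k h = h)
    (H : h ∣ a) : h ∣ E i k a := by
  rw [E_apply, ← h2]
  exact map_dvd _ (der_dvd h1 H)

/-- vanishing along the diagonals -/
def Good (r : ℕ) (T : Finset ℕ) (a : R) : Prop :=
  (∀ i < r, ∀ i' < r, i ≠ i' → (t i - t i') ^ 3 ∣ a) ∧ (∀ i < r, ∀ k ∈ T, (t i - x k) ^ 2 ∣ a)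

lemma Good.mul {r : ℕ} {T : Finset ℕ} {a : R} (h : Good r T a) (b : R) : Good r T (b * a) :=
  ⟨fun i hi i' hi' hne => (h.1 i hi i' hi' hne).mul_left b,
    fun i hi k hk => (h.2 i hi k hk).mul_left b⟩

lemma Good.mul' {r : ℕ} {T : Finset ℕ} {a : R} (h : Good r T a) (b : R) : Good r T (a * b) := by
  rw [mul_comm]; exact h.mul b

lemma Good.smul {r : ℕ} {T : Finset ℕ} {a : R} (h : Good r T a) (b : ℂ) : Good r T (b • a) := by
  rw [Algebra.smul_def]; exact h.mul _

lemma Good.sub' {r : ℕ} {T : Finset ℕ} {a b : R} (h : Good r T a) (h' : Good r T b) :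
    Good r T (a - b) :=
  ⟨fun i hi i' hi' hne => dvd_sub (h.1 i hi i' hi' hne) (h'.1 i hi i' hi' hne),
    fun i hi k hk => dvd_sub (h.2 i hi k hk) (h'.2 i hi k hk)⟩

lemma E_zero {r k : ℕ} {T : Finset ℕ} {a : R} (h : Good (r + 1) T a) (hk : k ∈ T) :
    E r k a = 0 := by
  have h1 := der_dvd_pow (dl r k) (h.2 r (Nat.lt_succ_self r) k hk)
  have h2 := map_dvd (sub r k) h1
  rw [pow_one, map_sub, sub_t_self, sub_x, sub_self, zero_dvd_iff] at h2
  exact h2

lemma Good_E {r k : ℕ} {T : Finset ℕ} {a : R} (h : Good (r + 1) T a) (hk : k ∉ T) :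
    Good r (insert k T) (E r k a) := by
  refine ⟨fun i hi i' hi' hne => ?_, fun i hi k' hk' => ?_⟩
  · refine E_dvd (pow_mem (sub_mem (t_ker_dl hi.ne) (t_ker_dl hi'.ne)) 3) ?_
      (h.1 i (by omega) i' (by omega) hne)
    rw [map_pow, map_sub, sub_t_ne _ _ hi.ne, sub_t_ne _ _ hi'.ne]
  · rcases Finset.mem_insert.1 hk' with rfl | hk'
    · have h1 := der_dvd_pow (dl r k') (h.1 i (by omega) r (by omega) hi.ne)
      have h2 := map_dvd (sub r k') h1
      rw [map_pow, map_sub, sub_t_self, sub_t_ne _ _ hi.ne] at h2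
      exact h2
    · have hne : k' ≠ k := fun e => hk (e ▸ hk')
      refine E_dvd (pow_mem (sub_mem (t_ker_dl hi.ne) (x_ker_dl hne)) 2) ?_
        (h.2 i (by omega) k' hk')
      rw [map_pow, map_sub, sub_t_ne _ _ hi.ne, sub_x]

lemma Good_sub {r k : ℕ} {T : Finset ℕ} {a : R} (h : Good (r + 1) T a) :
    Good r (insert k T) (sub r k a) := by
  refine ⟨fun i hi i' hi' hne => ?_, fun i hi k' hk' => ?_⟩
  · have h2 := map_dvd (sub r k) (h.1 i (by omega) i' (by omega) hne)
    rwa [map_pow, map_sub, sub_t_ne _ _ hi.ne, sub_t_ne _ _ hi'.ne] at h2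
  · rcases Finset.mem_insert.1 hk' with rfl | hk'
    · have h2 := map_dvd (sub r k') (h.1 i (by omega) r (by omega) hi.ne)
      rw [map_pow, map_sub, sub_t_self, sub_t_ne _ _ hi.ne] at h2
      exact (pow_dvd_pow _ (by norm_num)).trans h2
    · have h2 := map_dvd (sub r k) (h.2 i (by omega) k' hk')
      rwa [map_pow, map_sub, sub_t_ne _ _ hi.ne, sub_x] at h2

lemma Good_C {c : ℂ} {r k : ℕ} {T : Finset ℕ} {a : R} (h : Good (r + 1) T a) :
    Good r (T.erase k) (C c r k a) := by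
  refine ⟨fun i hi i' hi' hne => ?_, fun i hi k' hk' => ?_⟩
  · refine C_dvd (pow_mem (sub_mem (t_ker_pr hi.ne) (t_ker_pr hi'.ne)) 3) ?_
      (pow_mem (sub_mem (t_Fr _ _) (t_Fr _ _)) 3) (h.1 i (by omega) i' (by omega) hne)
    rw [map_pow, map_sub, sub_t_ne _ _ hi.ne, sub_t_ne _ _ hi'.ne]
  · obtain ⟨hne, hk'⟩ := Finset.mem_erase.1 hk'
    refine C_dvd (pow_mem (sub_mem (t_ker_pr hi.ne) (x_ker_pr _ _)) 2) ?_
      (pow_mem (sub_mem (t_Fr _ _) (x_Fr hne)) 2) (h.2 i (by omega) k' hk')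
    rw [map_pow, map_sub, sub_t_ne _ _ hi.ne, sub_x]

lemma xz_E {r k k' : ℕ} (hne : k' ≠ k) {z : ℂ} {a : R} (H : x k' - cst z ∣ a) :
    x k' - cst z ∣ E r k a :=
  E_dvd (sub_mem (x_ker_dl hne) (Subalgebra.algebraMap_mem _ _))
    (by rw [map_sub, sub_x, AlgHom.commutes]) H

lemma xz_C {c : ℂ} {r k k' : ℕ} (hne : k' ≠ k) {z : ℂ} {a : R} (H : x k' - cst z ∣ a) :
    x k' - cst z ∣ C c r k a :=
  C_dvd (sub_mem (x_ker_pr _ _) (Subalgebra.algebraMap_mem _ _))
    (by rw [map_sub, sub_x, AlgHom.commutes])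
    (sub_mem (x_Fr hne) (Subalgebra.algebraMap_mem _ _)) H

lemma tz_E {r k : ℕ} {z : ℂ} {a : R} (H : (t r - cst z) ^ 2 ∣ a) : x k - cst z ∣ E r k a := by
  have h2 := map_dvd (sub r k) (der_dvd_pow (dl r k) H)
  rwa [pow_one, map_sub, sub_t_self, AlgHom.commutes] at h2

lemma tz_E' {r r' k : ℕ} (hne : r' ≠ r) {z : ℂ} {a : R} (H : (t r' - cst z) ^ 2 ∣ a) :
    (t r' - cst z) ^ 2 ∣ E r k a :=
  E_dvd (pow_mem (sub_mem (t_ker_dl hne) (Subalgebra.algebraMap_mem _ _)) 2)
    (by rw [map_pow, map_sub, sub_t_ne _ _ hne, AlgHom.commutes]) H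

/-- the key computation -/
lemma CE_main (c : ℂ) (d k : ℕ) (a : R) :
    C c d k (E (d + 1) k ((t d - t (d + 1)) ^ 4 * a))
      = (-2 * c) • CT k (x k ^ 4 * sub d k (sub (d + 1) k a)) := by
  have hδ : der (dl (d + 1) k) (t d - t (d + 1)) = - t (d + 1) := by
    have : der (dl (d + 1) k) (t d) = 0 := t_ker_dl (by omega)
    rw [map_sub, this, der_dl_t, zero_sub]
  set g := t d - x k with hg
  have hsub : sub (d + 1) k (t d - t (d + 1)) = g := by
    rw [map_sub, sub_t_self, sub_t_ne _ _ (by omega)]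
  have hθ : der (pr (Sum.inl d)) g = t d := by
    have : der (pr (Sum.inl d)) (x k) = 0 := x_ker_pr _ _
    rw [hg, map_sub, this, der_pr_t, sub_zero]
  have hg0 : sub d k g = 0 := by rw [hg, map_sub, sub_t_self, sub_x, sub_self]
  have h1 : E (d + 1) k ((t d - t (d + 1)) ^ 4 * a)
      = g ^ 3 * (-4 * x k * sub (d + 1) k a + g * sub (d + 1) k (der (dl (d + 1) k) a)) := by
    rw [E_apply, der_pow_mul, hδ]
    simp only [map_mul, map_pow, map_add, map_neg, hsub, sub_t_self, map_natCast]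
    push_cast
    ring
  rw [h1, C_apply, th3_apply]
  set K := -4 * x k * sub (d + 1) k a + g * sub (d + 1) k (der (dl (d + 1) k) a) with hK
  set θ := der (pr (Sum.inl d)) with hθdef
  have e1 : θ (g ^ 3 * K) = g ^ 2 * (3 * t d * K + g * θ K) := by
    rw [hθdef, der_pow_mul, ← hθdef, hθ]; push_cast; ring
  set K1 := 3 * t d * K + g * θ K with hK1
  have e2 : θ (g ^ 2 * K1) = g ^ 1 * (2 * t d * K1 + g * θ K1) := by
    rw [hθdef, der_pow_mul, ← hθdef, hθ]; push_cast; ring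
  set K2 := 2 * t d * K1 + g * θ K1 with hK2
  have e3 : θ (g ^ 1 * K2) = t d * K2 + g * θ K2 := by
    rw [pow_one, hθdef, der_mul, ← hθdef, hθ]
  rw [e1, e2, e3]
  have e4 : sub d k (t d * K2 + g * θ K2 - g ^ 2 * K1)
      = (-24 : ℂ) • (x k ^ 4 * sub d k (sub (d + 1) k a)) := by
    rw [hK2, hK1, hK]
    simp only [map_sub, map_add, map_mul, map_pow, hg0, sub_t_self, sub_x, map_neg, map_ofNat]
    rw [Algebra.smul_def]
    simp only [map_neg, map_ofNat]
    ring
  rw [e4, map_smul, smul_smul]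
  congr 1
  ring

end Pool.Agent.H143Z.Vir
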