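import Pool.Agent.H143Z.Vir.A

set_option autoImplicit false

namespace Pool.Agent.H143Z.Vir

open AddMonoidAlgebra

noncomputable def ES {d : ℕ} (ι : Fin d → ℕ) (r : ℕ) : R →ₗ[ℂ] R := ∑ k, E r (ι k)

lemma ES_apply {d : ℕ} (ι : Fin d → ℕ) (r : ℕ) (a : R) : ES ι r a = ∑ k, E r (ι k) a := by
  simp [ES, LinearMap.sum_apply]

noncomputable def EE {d : ℕ} (ι : Fin d → ℕ) : ℕ → (R →ₗ[ℂ] R)
  | 0 => LinearMap.id
  | r + 1 => EE ι r ∘ₗ ES ι r

lemma EE_zero {d : ℕ} (ι : Fin d → ℕ) (a : R) : EE ι 0 a = a := rfl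

lemma EE_succ {d : ℕ} (ι : Fin d → ℕ) (r : ℕ) (a : R) :
    EE ι (r + 1) a = ∑ k, EE ι r (E r (ι k) a) := by
  show EE ι r (ES ι r a) = _
  rw [ES_apply, map_sum]

lemma EE_V {d : ℕ} (ι : Fin d → ℕ) (r : ℕ) : ∀ (T : Finset ℕ) (a : R), Good r T a →
    d < r + (Finset.univ.filter fun k => ι k ∈ T).card → EE ι r a = 0 := by
  induction r with
  | zero =>
    intro T a _ h
    have := Finset.card_filter_le (Finset.univ : Finset (Fin d)) (fun k => ι k ∈ T)
    simp at this h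
    omega
  | succ r ih =>
    intro T a ha h
    rw [EE_succ]
    refine Finset.sum_eq_zero fun k _ => ?_
    by_cases hk : ι k ∈ T
    · rw [E_zero ha hk, map_zero]
    · refine ih _ _ (Good_E ha hk) ?_
      have hss : (Finset.univ.filter fun k' => ι k' ∈ T)
          ⊂ (Finset.univ.filter fun k' => ι k' ∈ insert (ι k) T) := by
        rw [Finset.ssubset_iff_of_subset]
        · exact ⟨k, by simp, by simp [hk]⟩
        · intro k' hk'
          simp only [Finset.mem_filter, Finset.mem_univ, true_and] at hk' ⊢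
          exact Finset.mem_insert_of_mem hk'
      have := Finset.card_lt_card hss
      omega

noncomputable def HH (c : ℂ) {d : ℕ} (ι : Fin (d + 1) → ℕ) (j : Fin (d + 1)) : ℕ → (R →ₗ[ℂ] R)
  | 0 => 0
  | r + 1 => HH c ι j r ∘ₗ ES ι r + EE (ι ∘ j.succAbove) r ∘ₗ C c r (ι j)

lemma HH_succ (c : ℂ) {d : ℕ} (ι : Fin (d + 1) → ℕ) (j : Fin (d + 1)) (r : ℕ) (a : R) :
    HH c ι j (r + 1) a = ∑ k, HH c ι j r (E r (ι k) a)
      + EE (ι ∘ j.succAbove) r (C c r (ι j) a) := by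
  show HH c ι j r (ES ι r a) + _ = _
  rw [ES_apply, map_sum]; rfl

/-- the value of a character on a monomial -/
noncomputable def chE (r : ℕ) (y : ℕ → ℂˣ) {d : ℕ} (ι : Fin d → ℕ) (z : Fin d → ℂˣ) (e : Ex) : ℂˣ :=
  (∏ i ∈ Finset.range r, y i ^ e (Sum.inl i)) * ∏ k, z k ^ e (Sum.inr (ι k))

lemma chE_add (r : ℕ) (y : ℕ → ℂˣ) {d : ℕ} (ι : Fin d → ℕ) (z : Fin d → ℂˣ) (e e' : Ex) :
    chE r y ι z (e + e') = chE r y ι z e * chE r y ι z e' := by
  simp only [chE, Pi.add_apply, zpow_add, Finset.prod_mul_distrib]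
  ac_rfl

noncomputable def chi (r : ℕ) (y : ℕ → ℂˣ) {d : ℕ} (ι : Fin d → ℕ) (z : Fin d → ℂˣ) : R →ₐ[ℂ] ℂ :=
  ah (fun e => (chE r y ι z e : ℂ)) (by simp [chE]) (fun a b => by rw [chE_add, Units.val_mul])

lemma chi_mo (r : ℕ) (y : ℕ → ℂˣ) {d : ℕ} (ι : Fin d → ℕ) (z : Fin d → ℂˣ) (e : Ex) :
    chi r y ι z (mo e) = chE r y ι z e := ah_mo _ _ _ _

lemma chE_x (r : ℕ) (y : ℕ → ℂˣ) {d : ℕ} {ι : Fin d → ℕ} (hι : Function.Injective ι)
    (z : Fin d → ℂˣ) (k : Fin d) (n : ℤ) :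
    chE r y ι z (Pi.single (Sum.inr (ι k)) n) = z k ^ n := by
  unfold chE
  rw [Finset.prod_eq_one (fun i _ => by simp), one_mul, Finset.prod_eq_single k]
  · simp
  · intro k' _ hk'
    rw [Pi.single_eq_of_ne (by simpa using fun h => hk' (hι h))]; simp
  · simp

lemma chE_t {r : ℕ} (y : ℕ → ℂˣ) {d : ℕ} (ι : Fin d → ℕ)
    (z : Fin d → ℂˣ) {i : ℕ} (hi : i < r) (n : ℤ) :
    chE r y ι z (Pi.single (Sum.inl i) n) = y i ^ n := by
  unfold chE
  rw [Finset.prod_eq_one (s := Finset.univ) (fun i _ => by simp), mul_one, Finset.prod_eq_single i]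
  · simp
  · intro k' _ hk'
    rw [Pi.single_eq_of_ne (by simpa using hk')]; simp
  · simp [hi]

lemma chi_x (r : ℕ) (y : ℕ → ℂˣ) {d : ℕ} {ι : Fin d → ℕ} (hι : Function.Injective ι)
    (z : Fin d → ℂˣ) (k : Fin d) : chi r y ι z (x (ι k)) = z k := by
  show chi r y ι z (mo _) = _
  rw [chi_mo, chE_x r y hι, zpow_one]

lemma chi_t {r : ℕ} (y : ℕ → ℂˣ) {d : ℕ} (ι : Fin d → ℕ)
    (z : Fin d → ℂˣ) {i : ℕ} (hi : i < r) : chi r y ι z (t i) = y i := by
  show chi r y ι z (mo _) = _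
  rw [chi_mo, chE_t y ι z hi, zpow_one]

lemma chi_dvd (r : ℕ) (y : ℕ → ℂˣ) {d : ℕ} {ι : Fin d → ℕ} (hι : Function.Injective ι)
    (z : Fin d → ℂˣ) (k : Fin d) {a : R} (H : x (ι k) - cst (z k) ∣ a) : chi r y ι z a = 0 := by
  have := map_dvd (chi r y ι z) H
  rw [map_sub, chi_x r y hι, AlgHom.commutes] at this
  simpa using this

lemma EE_Z (y : ℕ → ℂˣ) {d : ℕ} {ι : Fin d → ℕ} (hι : Function.Injective ι) (z : Fin d → ℂˣ)
    (k : Fin d) (r : ℕ) : ∀ (T : Finset ℕ) (a : R), Good r T a → ι k ∈ T →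
      x (ι k) - cst (z k) ∣ a → chi 0 y ι z (EE ι r a) = 0 := by
  induction r with
  | zero => intro T a _ _ H; exact chi_dvd 0 y hι z k H
  | succ r ih =>
    intro T a ha hk H
    rw [EE_succ, map_sum]
    refine Finset.sum_eq_zero fun k' _ => ?_
    by_cases hk' : ι k' ∈ T
    · rw [E_zero ha hk', map_zero, map_zero]
    · exact ih _ _ (Good_E ha hk') (Finset.mem_insert_of_mem hk)
        (xz_E (by intro e; rw [e] at hk; exact hk' hk) H)

lemma sa_inj {d : ℕ} {ι : Fin (d + 1) → ℕ} (hι : Function.Injective ι) (j : Fin (d + 1)) :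
    Function.Injective (ι ∘ j.succAbove) := hι.comp Fin.succAbove_right_injective

lemma HH_Z (c : ℂ) (y : ℕ → ℂˣ) {d : ℕ} {ι : Fin (d + 1) → ℕ} (hι : Function.Injective ι)
    (j : Fin (d + 1)) (z : Fin d → ℂˣ)
    (k : Fin d) (r : ℕ) : ∀ (T : Finset ℕ) (a : R), Good r T a → ι (j.succAbove k) ∈ T →
      x (ι (j.succAbove k)) - cst (z k) ∣ a →
        chi 0 y (ι ∘ j.succAbove) z (HH c ι j r a) = 0 := by
  induction r with
  | zero => intro T a _ _ _; show chi 0 y _ z 0 = 0; exact map_zero _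
  | succ r ih =>
    intro T a ha hk H
    have hne : ι (j.succAbove k) ≠ ι j := fun e => Fin.succAbove_ne j k (hι e)
    rw [HH_succ, map_add, map_sum, EE_Z y (sa_inj hι j) z k r (T.erase (ι j)) _ (Good_C ha)
      (Finset.mem_erase.2 ⟨hne, hk⟩) (xz_C hne H), add_zero]
    refine Finset.sum_eq_zero fun k' _ => ?_
    by_cases hk' : ι k' ∈ T
    · rw [E_zero ha hk', map_zero, map_zero]
    · exact ih _ _ (Good_E ha hk') (Finset.mem_insert_of_mem hk)
        (xz_E (by intro e; rw [e] at hk; exact hk' hk) H)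

lemma chi_sub (r : ℕ) (y : ℕ → ℂˣ) {d : ℕ} {ι : Fin d → ℕ} (hι : Function.Injective ι)
    (z : Fin d → ℂˣ) (k : Fin d) (hz : z k = y r) (a : R) :
    chi r y ι z (sub r (ι k) a) = chi (r + 1) y ι z a := by
  induction a using ind with
  | h0 => simp
  | hadd a b ha hb => simp only [map_add, ha, hb]
  | hs s a ha => simp only [map_smul, ha]
  | h1 e =>
    rw [sub_mo, chi_mo, chi_mo]
    congr 1
    unfold chE
    rw [Finset.prod_range_succ, mul_assoc]
    congr 1
    · exact Finset.prod_congr rfl fun i hi => by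
        rw [subE_inl _ _ _ (Finset.mem_range.1 hi).ne]
    · simp only [subE_inr, zpow_add, Finset.prod_mul_distrib]
      rw [mul_comm]
      congr 1
      rw [Finset.prod_eq_single k]
      · simp [hz]
      · intro k' _ hk'
        rw [if_neg (fun h => hk' (hι h))]; simp
      · simp

/-- square factors -/
noncomputable def qq (y : ℕ → ℂˣ) (d i : ℕ) : R :=
  ∏ i' ∈ (Finset.range d).erase i, (t i - cst (y i')) ^ 2

noncomputable def Psi (y : ℕ → ℂˣ) (d r : ℕ) : R :=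
  ∏ i ∈ Finset.range r, ((t i - cst (y i)) * qq y d i)

noncomputable def Th (y : ℕ → ℂˣ) (d r : ℕ) : R :=
  ∏ i ∈ Finset.range r, (t i * qq y d i)

lemma qq_mem (y : ℕ → ℂˣ) (d i : ℕ) (S : Subalgebra ℂ R) (h : t i ∈ S) : qq y d i ∈ S :=
  prod_mem fun _ _ => pow_mem (sub_mem h (S.algebraMap_mem _)) 2

lemma Psi_mem (y : ℕ → ℂˣ) (d r : ℕ) (S : Subalgebra ℂ R) (h : ∀ i < r, t i ∈ S) :
    Psi y d r ∈ S :=
  prod_mem fun i hi => mul_mem (sub_mem (h i (Finset.mem_range.1 hi)) (S.algebraMap_mem _))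
    (qq_mem y d i S (h i (Finset.mem_range.1 hi)))

lemma Th_mem (y : ℕ → ℂˣ) (d r : ℕ) (S : Subalgebra ℂ R) (h : ∀ i < r, t i ∈ S) :
    Th y d r ∈ S :=
  prod_mem fun i hi => mul_mem (h i (Finset.mem_range.1 hi))
    (qq_mem y d i S (h i (Finset.mem_range.1 hi)))

/-- fixed points of an algebra map -/
noncomputable def fixS (f : R →ₐ[ℂ] R) : Subalgebra ℂ R := AlgHom.equalizer f (AlgHom.id ℂ R)

lemma mem_fixS {f : R →ₐ[ℂ] R} {a : R} : a ∈ fixS f ↔ f a = a := Iff.rfl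

lemma EE_Y (y : ℕ → ℂˣ) {d : ℕ} {ι : Fin d → ℕ} (hι : Function.Injective ι)
    (π : Equiv.Perm (Fin d)) (r : ℕ) : r ≤ d → ∀ (T : Finset ℕ) (a : R), Good r T a →
      (∀ k, (π k : ℕ) < r → ι k ∉ T) →
      chi 0 y ι (fun k => y (π k)) (EE ι r (Psi y d r * a))
        = chi r y ι (fun k => y (π k)) (Th y d r * a) := by
  induction r with
  | zero => intro _ T a _ _; simp [Psi, Th, EE_zero]
  | succ r ih =>
    intro hr T a ha hT
    set z : Fin d → ℂˣ := fun k => y (π k) with hz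
    set k0 : Fin d := π.symm ⟨r, hr⟩ with hk0
    have hπ : (π k0 : ℕ) = r := by simp [hk0]
    have hz0 : z k0 = y r := by rw [hz]; simp only [hπ]
    have hk0T : ι k0 ∉ T := hT k0 (by omega)
    have hG : Good (r + 1) T (Psi y d (r + 1) * a) := ha.mul _
    rw [EE_succ, map_sum, Finset.sum_eq_single k0]
    · set b := t r * qq y d r * a with hb
      have hPk : Psi y d r ∈ kerD (dl r (ι k0)) := Psi_mem y d r _ fun i hi => t_ker_dl hi.ne
      have hPf : sub r (ι k0) (Psi y d r) = Psi y d r :=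
        mem_fixS.1 (Psi_mem y d r _ fun i hi => mem_fixS.2 (sub_t_ne _ _ hi.ne))
      have hTf : sub r (ι k0) (Th y d r) = Th y d r :=
        mem_fixS.1 (Th_mem y d r _ fun i hi => mem_fixS.2 (sub_t_ne _ _ hi.ne))
      have e1 : E r (ι k0) (Psi y d (r + 1) * a) - Psi y d r * sub r (ι k0) b
          = (x (ι k0) - cst (z k0)) *
            (Psi y d r * sub r (ι k0) (der (dl r (ι k0)) (qq y d r * a))) := by
        have : Psi y d (r + 1) * a = Psi y d r * ((t r - cst (y r)) * (qq y d r * a)) := by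
          rw [Psi, Finset.prod_range_succ, ← Psi]; ring
        rw [this, E_apply, der_mul_ker hPk, der_mul, map_sub, der_dl_t, der_alg, sub_zero, hb, hz0]
        simp only [map_mul, map_add, map_sub, hPf, sub_t_self, AlgHom.commutes]
        ring
      have hGb : Good (r + 1) T b := ha.mul _
      have hG2 : Good r (insert (ι k0) T)
          (E r (ι k0) (Psi y d (r + 1) * a) - Psi y d r * sub r (ι k0) b) :=
        (Good_E hG hk0T).sub' ((Good_sub hGb).mul _)
      have e2 := EE_Z y hι z k0 r _ _ hG2 (Finset.mem_insert_self _ _) (e1 ▸ dvd_mul_right _ _)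
      rw [map_sub, map_sub, sub_eq_zero] at e2
      rw [e2, ih (by omega) _ _ (Good_sub hGb), ← hTf, ← map_mul, chi_sub r y hι z k0 hz0]
      · congr 1
        rw [Th, Th, Finset.prod_range_succ, hb]; ring
      · intro k hk hm
        rcases Finset.mem_insert.1 hm with h | h
        · have := hι h
          subst this
          omega
        · exact hT k (by omega) h
    · intro k _ hk
      by_cases hk' : ι k ∈ T
      · rw [E_zero hG hk', map_zero, map_zero]
      · refine EE_Z y hι z k r _ _ (Good_E hG hk') (Finset.mem_insert_self _ _) (tz_E ?_)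
        apply Dvd.dvd.mul_right
        rw [Psi, Finset.prod_range_succ]
        apply Dvd.dvd.mul_left
        apply Dvd.dvd.mul_left
        refine Finset.dvd_prod_of_mem (fun i' => (t r - cst (y i')) ^ 2) (a := (π k : ℕ)) ?_
        refine Finset.mem_erase.2 ⟨fun h => hk ?_, Finset.mem_range.2 (π k).2⟩
        rw [hk0, Equiv.eq_symm_apply]
        exact Fin.ext h
    · simp

end Pool.Agent.H143Z.Vir
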