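import Pool.Agent.H143Z.Vir.B

set_option autoImplicit false

namespace Pool.Agent.H143Z.Vir

open AddMonoidAlgebra

lemma HH_main (c : ℂ) (y : ℕ → ℂˣ) {d : ℕ} {ι : Fin (d + 1) → ℕ} (hι : Function.Injective ι)
    (π : Equiv.Perm (Fin d)) (j : Fin (d + 1)) (b : R)
    (hG : Good (d + 2) ∅ ((t d - t (d + 1)) ^ 4 * (Psi y d d * b)))
    (h1 : ∀ i < d, (t d - cst (y i)) ^ 2 ∣ b) (h2 : ∀ i < d, (t (d + 1) - cst (y i)) ^ 2 ∣ b)
    (h3 : ∀ i < d, ∀ i' < d, i ≠ i' → (t i - t i') ^ 3 ∣ b) :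
    chi 0 y (ι ∘ j.succAbove) (fun k => y (π k))
        (HH c ι j (d + 2) ((t d - t (d + 1)) ^ 4 * (Psi y d d * b)))
      = chi d y (ι ∘ j.succAbove) (fun k => y (π k)) (Th y d d) * (-2 * c *
        chi d y (ι ∘ j.succAbove) (fun k => y (π k))
          (CT (ι j) (x (ι j) ^ 4 * sub d (ι j) (sub (d + 1) (ι j) b)))) := by
  set z : Fin d → ℂˣ := fun k => y (π k) with hz
  set G0 := (t d - t (d + 1)) ^ 4 * (Psi y d d * b) with hG0
  have hb : b ∣ G0 := (dvd_mul_left _ _).mul_left _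
  rw [HH_succ, EE_V _ (d + 1) _ _ (Good_C hG) (by omega), add_zero, map_sum,
    Finset.sum_eq_single j]
  · -- the main term
    have hGj := Good_E (k := ι j) hG (Finset.notMem_empty _)
    rw [HH_succ, map_add, map_sum, Finset.sum_eq_zero, zero_add]
    · rw [hG0, CE_main]
      have hPf : ∀ r, d ≤ r → sub r (ι j) (Psi y d d) = Psi y d d := fun r hr =>
        mem_fixS.1 (Psi_mem y d d _ fun i hi => mem_fixS.2 (sub_t_ne _ _ (by omega)))
      have hPF : Psi y d d ∈ Fr (ι j) := Psi_mem y d d _ fun i _ => t_Fr _ _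
      have e1 : x (ι j) ^ 4 * sub d (ι j) (sub (d + 1) (ι j) (Psi y d d * b))
          = Psi y d d * (x (ι j) ^ 4 * sub d (ι j) (sub (d + 1) (ι j) b)) := by
        rw [map_mul, map_mul, hPf _ (by omega), hPf _ le_rfl]; ring
      rw [e1, hPF, map_smul, map_smul, EE_Y y (sa_inj hι j) π d le_rfl ∅, map_mul, smul_eq_mul]
      · ring
      · refine ⟨fun i hi i' hi' hne => ?_, fun i _ k hk => absurd hk (Finset.notMem_empty _)⟩
        refine CT_dvd (pow_mem (sub_mem (t_Fr _ _) (t_Fr _ _)) 3) (Dvd.dvd.mul_left ?_ _)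
        have := map_dvd (sub d (ι j)) (map_dvd (sub (d + 1) (ι j)) (h3 i hi i' hi' hne))
        rwa [map_pow, map_sub, sub_t_ne _ _ (by omega), sub_t_ne _ _ (by omega), map_pow, map_sub,
          sub_t_ne _ _ (by omega), sub_t_ne _ _ (by omega)] at this
      · intro k _; exact Finset.notMem_empty _
    · intro k' _
      by_cases hk' : k' = j
      · rw [hk', E_zero hGj (Finset.mem_insert_self _ _), map_zero, map_zero]
      · obtain ⟨m, rfl⟩ := Fin.exists_succAbove_eq hk'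
        have hn : ι (j.succAbove m) ∉ insert (ι j) (∅ : Finset ℕ) := by
          simpa using fun h => hk' (hι h)
        exact HH_Z c y hι j z m d _ _ (Good_E hGj hn) (Finset.mem_insert_self _ _)
          (tz_E (tz_E' (by omega) ((h1 _ (π m).2).trans hb)))
  · intro k _ hk
    obtain ⟨m, rfl⟩ := Fin.exists_succAbove_eq hk
    have hGk := Good_E (k := ι (j.succAbove m)) hG (Finset.notMem_empty _)
    have hne : ι (j.succAbove m) ≠ ι j := fun h => hk (hι h)
    rw [HH_succ, map_add, map_sum, Finset.sum_eq_zero, zero_add, EE_V _ d _ _ (Good_C hGk),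
      map_zero]
    · have : 0 < (Finset.univ.filter fun k : Fin d => (ι ∘ j.succAbove) k ∈
          (insert (ι (j.succAbove m)) (∅ : Finset ℕ)).erase (ι j)).card :=
        Finset.card_pos.2 ⟨m, by simp [hne]⟩
      omega
    · intro k' _
      by_cases hk' : k' = j.succAbove m
      · rw [hk', E_zero hGk (Finset.mem_insert_self _ _), map_zero, map_zero]
      · have hn : ι k' ∉ insert (ι (j.succAbove m)) (∅ : Finset ℕ) := by
          simpa using fun h => hk' (hι h)
        exact HH_Z c y hι j z m d _ _ (Good_E hGk hn)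
          (Finset.mem_insert_of_mem (Finset.mem_insert_self _ _))
          (xz_E (fun h => hk' (hι h).symm) (tz_E ((h2 _ (π m).2).trans hb)))
  · simp

/-- Laurent polynomials in `n` variables -/
abbrev FF (n : ℕ) : Type := RG (Fin n → ℤ)

def embE {n : ℕ} (a : Fin n → ℤ) : Ex :=
  Sum.elim 0 (fun k => if h : k < n then a ⟨k, h⟩ else 0)

@[simp] lemma embE_inl {n : ℕ} (a : Fin n → ℤ) (i : ℕ) : embE a (Sum.inl i) = 0 := rfl
@[simp] lemma embE_inr {n : ℕ} (a : Fin n → ℤ) (k : Fin n) : embE a (Sum.inr (k : ℕ)) = a k := by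
  simp [embE]

lemma embE_add {n : ℕ} (a b : Fin n → ℤ) : embE (a + b) = embE a + embE b := by
  funext v
  rcases v with i | k
  · simp
  · simp only [embE, Sum.elim_inr, Pi.add_apply]
    split_ifs <;> simp

lemma embE_zero {n : ℕ} : embE (0 : Fin n → ℤ) = 0 := by
  funext v
  rcases v with i | k <;> simp [embE]

noncomputable def emb (n : ℕ) : FF n →ₐ[ℂ] R :=
  ah (fun a => mo (embE a)) (by rw [embE_zero, mo_zero]) (fun a b => by rw [embE_add, mo_add])

lemma emb_mo {n : ℕ} (a : Fin n → ℤ) : emb n (mo a) = mo (embE a) := ah_mo _ _ _ _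

def tpE (e : Ex) : Ex := Sum.elim (fun i => e (Sum.inl i)) 0

@[simp] lemma tpE_inl (e : Ex) (i : ℕ) : tpE e (Sum.inl i) = e (Sum.inl i) := rfl
@[simp] lemma tpE_inr (e : Ex) (i : ℕ) : tpE e (Sum.inr i) = 0 := rfl

noncomputable def tp : R →ₐ[ℂ] R :=
  ah (fun e => mo (tpE e)) (by
    have : tpE 0 = 0 := by funext v; rcases v with i | k <;> simp
    rw [this, mo_zero]) (fun a b => by
    have : tpE (a + b) = tpE a + tpE b := by funext v; rcases v with i | k <;> simp
    rw [this, mo_add])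

lemma tp_mo (e : Ex) : tp (mo e) = mo (tpE e) := ah_mo _ _ _ _

lemma tp_single (i : ℕ) (n : ℤ) :
    tp (mo (Pi.single (Sum.inl i) n)) = mo (Pi.single (Sum.inl i) n) := by
  rw [tp_mo]; congr 1
  funext v; rcases v with i' | k <;> simp

lemma tp_t (i : ℕ) : tp (t i) = t i := tp_single i 1

noncomputable def res {d : ℕ} (ι : Fin d → ℕ) : R →ₗ[ℂ] FF d :=
  lin fun e => mo fun k => e (Sum.inr (ι k))

lemma res_mo {d : ℕ} (ι : Fin d → ℕ) (e : Ex) :
    res ι (mo e) = mo fun k => e (Sum.inr (ι k)) := lin_mo _ _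

noncomputable def ev {d : ℕ} (z : Fin d → ℂˣ) : FF d →ₐ[ℂ] ℂ :=
  ah (fun a => ((∏ k, z k ^ a k : ℂˣ) : ℂ)) (by simp) (fun a b => by
    simp only [Pi.add_apply, zpow_add, Finset.prod_mul_distrib, Units.val_mul])

lemma ev_mo {d : ℕ} (z : Fin d → ℂˣ) (a : Fin d → ℤ) :
    ev z (mo a) = ((∏ k, z k ^ a k : ℂˣ) : ℂ) := ah_mo _ _ _ _

lemma ev_res (y : ℕ → ℂˣ) {d : ℕ} (ι : Fin d → ℕ) (z : Fin d → ℂˣ) (a : R) :
    ev z (res ι a) = chi 0 y ι z a := by
  induction a using ind with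
  | h0 => simp
  | hadd a b ha hb => simp only [map_add, ha, hb]
  | hs s a ha => simp only [map_smul, ha]
  | h1 e => rw [res_mo, ev_mo, chi_mo]; simp [chE]

noncomputable def perm {n : ℕ} (τ : Equiv.Perm (Fin n)) : FF n →ₗ[ℂ] FF n :=
  lin fun a => mo (a ∘ τ)

lemma perm_mo {n : ℕ} (τ : Equiv.Perm (Fin n)) (a : Fin n → ℤ) : perm τ (mo a) = mo (a ∘ τ) :=
  lin_mo _ _

noncomputable def Sy {n : ℕ} (F : FF n) : FF n := ∑ τ : Equiv.Perm (Fin n), perm τ F

lemma perm_perm {n : ℕ} (σ τ : Equiv.Perm (Fin n)) (F : FF n) :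
    perm σ (perm τ F) = perm (τ * σ) F := by
  induction F using ind with
  | h0 => simp
  | hadd a b ha hb => simp only [map_add, ha, hb]
  | hs s a ha => simp only [map_smul, ha]
  | h1 e => rw [perm_mo, perm_mo, perm_mo]; rfl

lemma perm_Sy {n : ℕ} (σ : Equiv.Perm (Fin n)) (F : FF n) : perm σ (Sy F) = Sy F := by
  rw [Sy, map_sum]
  simp only [perm_perm]
  exact Fintype.sum_equiv (Equiv.mulRight σ) _ _ fun τ => rfl

lemma ev_perm {n : ℕ} (z : Fin n → ℂˣ) (τ : Equiv.Perm (Fin n)) (F : FF n) :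
    ev z (perm τ F) = ev (fun k => z (τ.symm k)) F := by
  induction F using ind with
  | h0 => simp
  | hadd a b ha hb => simp only [map_add, ha, hb]
  | hs s a ha => simp only [map_smul, ha]
  | h1 e =>
    rw [perm_mo, ev_mo, ev_mo]
    congr 1
    exact Fintype.prod_equiv τ _ _ fun k => by simp

/-- the character of the torus with exponent `a` -/
noncomputable def chr {n : ℕ} (a : Fin n → ℤ) : (Fin n → ℂˣ) →* ℂ where
  toFun z := ((∏ k, z k ^ a k : ℂˣ) : ℂ)
  map_one' := by simp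
  map_mul' z w := by simp only [Pi.mul_apply, mul_zpow, Finset.prod_mul_distrib, Units.val_mul]

lemma chr_inj {n : ℕ} : Function.Injective (chr (n := n)) := by
  intro a b h
  funext k
  have h2 : (2 : ℂ) ≠ 0 := two_ne_zero
  have := DFunLike.congr_fun h (Pi.mulSingle k (Units.mk0 2 h2))
  have key : ∀ a : Fin n → ℤ, chr a (Pi.mulSingle k (Units.mk0 2 h2)) = (2 : ℂ) ^ a k := by
    intro a
    show ((∏ k', (Pi.mulSingle k (Units.mk0 (2 : ℂ) h2) : Fin n → ℂˣ) k' ^ a k' : ℂˣ) : ℂ) = _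
    rw [Finset.prod_eq_single k]
    · simp
    · intro k' _ hk'; simp [Pi.mulSingle_eq_of_ne hk']
    · simp
  rw [key, key] at this
  have h3 : (2 : ℝ) ^ a k = (2 : ℝ) ^ b k := by
    have := congrArg norm this
    simpa [norm_zpow] using this
  exact zpow_right_injective₀ (by norm_num) (by norm_num) h3

lemma eq_zero_of_ev {n : ℕ} {F : FF n} (h : ∀ z, ev z F = 0) : F = 0 := by
  have li := (linearIndependent_monoidHom (Fin n → ℂˣ) ℂ).comp chr chr_inj
  rw [linearIndependent_iff] at li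
  have key : ∀ F : FF n, ∀ z, Finsupp.linearCombination ℂ
      ((fun f : (Fin n → ℂˣ) →* ℂ => (f : (Fin n → ℂˣ) → ℂ)) ∘ chr)
        ((AddMonoidAlgebra.basis (Fin n → ℤ) ℂ).repr F) z = ev z F := by
    intro F z
    induction F using ind with
    | h0 => simp
    | hadd a b ha hb => simp only [map_add, Pi.add_apply, ha, hb]
    | hs s a ha => simp only [map_smul, Pi.smul_apply, ha]
    | h1 e =>
      have : mo e = AddMonoidAlgebra.basis (Fin n → ℤ) ℂ e := by simp [mo]
      rw [ev_mo, this, Module.Basis.repr_self, Finsupp.linearCombination_single, one_smul]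
      rfl
  have := li ((AddMonoidAlgebra.basis (Fin n → ℤ) ℂ).repr F) (funext fun z => by rw [key, h]; rfl)
  exact (LinearEquiv.map_eq_zero_iff _).1 this

lemma ev_single {n : ℕ} (z : Fin n → ℂˣ) (k : Fin n) : ev z (mo (Pi.single k 1)) = z k := by
  rw [ev_mo, Finset.prod_eq_single k]
  · simp
  · intro k' _ hk'; simp [Pi.single_eq_of_ne hk']
  · simp

lemma exists_inj {n : ℕ} {F : FF n} (hF : F ≠ 0) :
    ∃ w : Fin n → ℂˣ, Function.Injective w ∧ ev w F ≠ 0 := by
  set V : FF n := ∏ p ∈ (Finset.univ : Finset (Fin n)).offDiag,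
    (mo (Pi.single p.1 1) - mo (Pi.single p.2 1)) with hV
  have hV0 : V ≠ 0 := by
    rw [hV, Finset.prod_ne_zero_iff]
    intro p hp h
    have hne : p.1 ≠ p.2 := (Finset.mem_offDiag.1 hp).2.2
    have := congrArg (ev (Pi.mulSingle p.1 (Units.mk0 (2 : ℂ) two_ne_zero))) h
    rw [map_sub, ev_single, ev_single, Pi.mulSingle_eq_of_ne hne.symm] at this
    norm_num at this
  have : ∃ w, ev w (F * V) ≠ 0 := by
    by_contra h
    push Not at h
    exact mul_ne_zero hF hV0 (eq_zero_of_ev h)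
  obtain ⟨w, hw⟩ := this
  rw [map_mul] at hw
  refine ⟨w, fun i j hij => ?_, left_ne_zero_of_mul hw⟩
  by_contra hne
  apply right_ne_zero_of_mul hw
  rw [hV, map_prod]
  refine Finset.prod_eq_zero (i := (i, j)) (Finset.mem_offDiag.2 ⟨by simp, by simp, hne⟩) ?_
  rw [map_sub, ev_single, ev_single, hij, sub_self]

end Pool.Agent.H143Z.Vir
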