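import Pool.Agent.H143Z.Vir.C

set_option autoImplicit false

namespace Pool.Agent.H143Z.Vir

open AddMonoidAlgebra

lemma smul_mo_mul {G : Type} [AddCommGroup G] (s s' : ℂ) (e e' : G) :
    (s * s') • mo (e + e') = (s • mo e) * (s' • mo e') := by
  rw [mo_add, smul_mul_smul_comm]

/-- the inclusion of slots -/
def vl (n : ℕ) : Fin n → ℕ := fun k => k

lemma vl_inj (n : ℕ) : Function.Injective (vl n) := Fin.val_injective

noncomputable def sl (y : ℕ → ℂˣ) {d : ℕ} (j : Fin (d + 1)) (z : Fin d → ℂˣ) : R →ₐ[ℂ] RG ℤ :=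
  ah (fun e => (chE d y (vl (d + 1) ∘ j.succAbove) z e : ℂ) • mo (e (Sum.inr (j : ℕ))))
    (by simp [chE, mo_zero]) (fun a b => by rw [chE_add, Units.val_mul, ← smul_mo_mul]; rfl)

lemma sl_mo (y : ℕ → ℂˣ) {d : ℕ} (j : Fin (d + 1)) (z : Fin d → ℂˣ) (e : Ex) :
    sl y j z (mo e) = (chE d y (vl (d + 1) ∘ j.succAbove) z e : ℂ) • mo (e (Sum.inr (j : ℕ))) :=
  ah_mo _ _ _ _

noncomputable def cf0 : RG ℤ →ₗ[ℂ] ℂ := lin fun n => if n = 0 then 1 else 0

lemma cf0_mo (n : ℤ) : cf0 (mo n) = if n = 0 then 1 else 0 := lin_mo _ _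

lemma chi_CT (y : ℕ → ℂˣ) {d : ℕ} (j : Fin (d + 1)) (z : Fin d → ℂˣ) (a : R) :
    chi d y (vl (d + 1) ∘ j.succAbove) z (CT j a) = cf0 (sl y j z a) := by
  induction a using ind with
  | h0 => simp
  | hadd a b ha hb => simp only [map_add, ha, hb]
  | hs s a ha => simp only [map_smul, ha]
  | h1 e =>
    rw [CT_mo, sl_mo, map_smul, cf0_mo]
    split_ifs
    · rw [chi_mo]; simp
    · simp

lemma exists_cf0 {g : RG ℤ} (hg : g ≠ 0) : ∃ κ : ℤ, cf0 (mo κ * g) ≠ 0 := by
  by_contra h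
  push Not at h
  apply hg
  have key : ∀ (g : RG ℤ) (κ : ℤ), cf0 (mo (-κ) * g) = (AddMonoidAlgebra.basis ℤ ℂ).repr g κ := by
    intro g κ
    induction g using ind with
    | h0 => simp
    | hadd a b ha hb => simp only [mul_add, map_add, Finsupp.add_apply, ha, hb]
    | hs s a ha => simp only [mul_smul_comm, map_smul, Finsupp.smul_apply, ha]
    | h1 e =>
      have : mo e = AddMonoidAlgebra.basis ℤ ℂ e := by simp [mo]
      rw [← mo_add, cf0_mo, this, Module.Basis.repr_self, Finsupp.single_apply]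
      congr 1
      exact propext ⟨fun h => by omega, fun h => by omega⟩
  have : (AddMonoidAlgebra.basis ℤ ℂ).repr g = 0 := by
    ext κ; rw [← key, h]; rfl
  exact (LinearEquiv.map_eq_zero_iff _).1 this

noncomputable def sl2 (y : ℕ → ℂˣ) (d : ℕ) : R →ₐ[ℂ] RG ℤ :=
  ah (fun e => ((∏ i ∈ Finset.range d, y i ^ e (Sum.inl i) : ℂˣ) : ℂ) •
      mo (e (Sum.inl d) + e (Sum.inl (d + 1))))
    (by simp [mo_zero]) (fun a b => by
      rw [← smul_mo_mul]
      simp only [Pi.add_apply, zpow_add, Finset.prod_mul_distrib, Units.val_mul]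
      congr 2
      ring)

lemma sl2_mo (y : ℕ → ℂˣ) (d : ℕ) (e : Ex) :
    sl2 y d (mo e) = ((∏ i ∈ Finset.range d, y i ^ e (Sum.inl i) : ℂˣ) : ℂ) •
      mo (e (Sum.inl d) + e (Sum.inl (d + 1))) := ah_mo _ _ _ _

lemma sl_sub (y : ℕ → ℂˣ) {d : ℕ} (j : Fin (d + 1)) (z : Fin d → ℂˣ) (b : R) :
    sl y j z (sub d j (sub (d + 1) j (tp b))) = sl2 y d b := by
  induction b using ind with
  | h0 => simp
  | hadd a b ha hb => simp only [map_add, ha, hb]
  | hs s a ha => simp only [map_smul, ha]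
  | h1 e =>
    rw [tp_mo, sub_mo, sub_mo, sl_mo, sl2_mo]
    congr 1
    · congr 1
      unfold chE
      rw [Finset.prod_eq_one (s := Finset.univ), mul_one]
      · refine Finset.prod_congr rfl fun i hi => ?_
        have := Finset.mem_range.1 hi
        rw [subE_inl _ _ _ (by omega), subE_inl _ _ _ (by omega), tpE_inl]
      · intro k _
        have hne : (vl (d + 1) ∘ j.succAbove) k ≠ j :=
          fun h => Fin.succAbove_ne j k (Fin.val_injective h)
        rw [subE_inr, subE_inr, if_neg hne, if_neg hne]; simp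
    · rw [subE_inr, subE_inr, subE_inl _ _ _ (by omega)]
      simp [add_comm]

lemma sub_emb {n : ℕ} (i k : ℕ) (F : FF n) : sub i k (emb n F) = emb n F := by
  induction F using ind with
  | h0 => simp
  | hadd a b ha hb => simp only [map_add, ha, hb]
  | hs s a ha => simp only [map_smul, ha]
  | h1 e => rw [emb_mo, sub_mo]; congr 1; simp [subE]

noncomputable def slice {d : ℕ} (j : Fin (d + 1)) (z : Fin d → ℂˣ) : FF (d + 1) →ₗ[ℂ] RG ℤ :=
  lin fun a => ((∏ k, z k ^ a (j.succAbove k) : ℂˣ) : ℂ) • mo (a j)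

lemma slice_mo {d : ℕ} (j : Fin (d + 1)) (z : Fin d → ℂˣ) (a : Fin (d + 1) → ℤ) :
    slice j z (mo a) = ((∏ k, z k ^ a (j.succAbove k) : ℂˣ) : ℂ) • mo (a j) := lin_mo _ _

lemma sl_emb (y : ℕ → ℂˣ) {d : ℕ} (j : Fin (d + 1)) (z : Fin d → ℂˣ) (F : FF (d + 1)) :
    sl y j z (emb (d + 1) F) = slice j z F := by
  induction F using ind with
  | h0 => simp
  | hadd a b ha hb => simp only [map_add, ha, hb]
  | hs s a ha => simp only [map_smul, ha]
  | h1 e => rw [emb_mo, sl_mo, slice_mo]; simp [chE, vl]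

lemma slice_symm {d : ℕ} (j : Fin (d + 1)) (z : Fin d → ℂˣ) (π : Equiv.Perm (Fin d))
    {F : FF (d + 1)} (hF : ∀ τ, perm τ F = F) :
    slice j (fun k => z (π k)) F = slice 0 z F := by
  set τ : Equiv.Perm (Fin (d + 1)) :=
    (finSuccEquiv' 0).trans ((Equiv.optionCongr π.symm).trans (finSuccEquiv' j).symm) with hτ
  have h0 : τ 0 = j := by
    simp only [hτ, Equiv.trans_apply, finSuccEquiv'_at, Equiv.optionCongr_apply, Option.map_none,
      finSuccEquiv'_symm_none]
  have h1 : ∀ m, τ ((0 : Fin (d + 1)).succAbove m) = j.succAbove (π.symm m) := by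
    intro m
    simp only [hτ, Equiv.trans_apply, finSuccEquiv'_succAbove, Equiv.optionCongr_apply,
      Option.map_some, finSuccEquiv'_symm_some]
  have key : ∀ F : FF (d + 1), slice j (fun k => z (π k)) F = slice 0 z (perm τ F) := by
    intro F
    induction F using ind with
    | h0 => simp
    | hadd a b ha hb => simp only [map_add, ha, hb]
    | hs s a ha => simp only [map_smul, ha]
    | h1 e =>
      rw [perm_mo, slice_mo, slice_mo]
      simp only [Function.comp_apply, h0, h1]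
      congr 2
      exact Fintype.prod_equiv π _ _ fun k => by simp
  rw [key, hF]

noncomputable def evu (w : ℂˣ) : RG ℤ →ₐ[ℂ] ℂ :=
  ah (fun n => ((w ^ n : ℂˣ) : ℂ)) (by simp) (fun a b => by rw [zpow_add, Units.val_mul])

lemma evu_mo (w : ℂˣ) (n : ℤ) : evu w (mo n) = ((w ^ n : ℂˣ) : ℂ) := ah_mo _ _ _ _

lemma ev_slice {d : ℕ} (w : Fin (d + 1) → ℂˣ) (F : FF (d + 1)) :
    evu (w 0) (slice 0 (fun k => w k.succ) F) = ev w F := by
  induction F using ind with
  | h0 => simp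
  | hadd a b ha hb => simp only [map_add, ha, hb]
  | hs s a ha => simp only [map_smul, ha]
  | h1 e =>
    rw [slice_mo, map_smul, evu_mo, ev_mo, Fin.prod_univ_succ, smul_eq_mul, ← Units.val_mul,
      mul_comm]
    simp

noncomputable def BB (y : ℕ → ℂˣ) (d : ℕ) : R :=
  (∏ p ∈ (Finset.range d).offDiag, (t p.1 - t p.2) ^ 3) *
    ∏ i ∈ Finset.range d, ((t i - t d) ^ 3 * (t i - t (d + 1)) ^ 3 *
      ((t d - cst (y i)) ^ 2 * (t (d + 1) - cst (y i)) ^ 2))

lemma BB_mem (y : ℕ → ℂˣ) (d : ℕ) (S : Subalgebra ℂ R) (h : ∀ i, t i ∈ S) : BB y d ∈ S :=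
  mul_mem (prod_mem fun _ _ => pow_mem (sub_mem (h _) (h _)) 3)
    (prod_mem fun _ _ => mul_mem (mul_mem (pow_mem (sub_mem (h _) (h _)) 3)
      (pow_mem (sub_mem (h _) (h _)) 3))
      (mul_mem (pow_mem (sub_mem (h _) (S.algebraMap_mem _)) 2)
        (pow_mem (sub_mem (h _) (S.algebraMap_mem _)) 2)))

lemma BB_dvd0 (y : ℕ → ℂˣ) {d i i' : ℕ} (hi : i < d) (hi' : i' < d) (hne : i ≠ i') :
    (t i - t i') ^ 3 ∣ BB y d :=
  Dvd.dvd.mul_right (Finset.dvd_prod_of_mem (fun p : ℕ × ℕ => (t p.1 - t p.2) ^ 3) (a := (i, i'))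
    (Finset.mem_offDiag.2 ⟨Finset.mem_range.2 hi, Finset.mem_range.2 hi', hne⟩)) _

lemma BB_dvd (y : ℕ → ℂˣ) {d i : ℕ} (hi : i < d) :
    (t i - t d) ^ 3 * (t i - t (d + 1)) ^ 3 *
      ((t d - cst (y i)) ^ 2 * (t (d + 1) - cst (y i)) ^ 2) ∣ BB y d :=
  Dvd.dvd.mul_left (Finset.dvd_prod_of_mem (fun i => (t i - t d) ^ 3 * (t i - t (d + 1)) ^ 3 *
      ((t d - cst (y i)) ^ 2 * (t (d + 1) - cst (y i)) ^ 2)) (Finset.mem_range.2 hi)) _

lemma cube_symm {a b c : R} (h : (a - b) ^ 3 ∣ c) : (b - a) ^ 3 ∣ c := by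
  have : (b - a) ^ 3 = -(a - b) ^ 3 := by ring
  rw [this]; exact neg_dvd.2 h

lemma Good_p (y : ℕ → ℂˣ) (d : ℕ) : Good (d + 2) ∅ ((t d - t (d + 1)) ^ 4 * BB y d) := by
  refine ⟨?_, fun i _ k hk => absurd hk (Finset.notMem_empty _)⟩
  have key : ∀ i < d + 2, ∀ i' < d + 2, i < i' →
      (t i - t i') ^ 3 ∣ (t d - t (d + 1)) ^ 4 * BB y d := by
    intro i hi i' hi' hlt
    by_cases h1 : i' < d
    · exact (BB_dvd0 y (by omega) h1 hlt.ne).mul_left _
    by_cases h2 : i < d
    · have := BB_dvd y h2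
      by_cases h3 : i' = d
      · subst h3
        exact (((dvd_mul_right _ _).mul_right _).trans this).mul_left _
      · obtain rfl : i' = d + 1 := by omega
        exact (((dvd_mul_left _ _).mul_right _).trans this).mul_left _
    · obtain rfl : i = d := by omega
      obtain rfl : i' = i + 1 := by omega
      exact (pow_dvd_pow _ (by norm_num)).mul_right _
  intro i hi i' hi' hne
  rcases lt_or_gt_of_ne hne with h | h
  · exact key i hi i' hi' h
  · exact cube_symm (key i' hi' i hi h)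

lemma sl2_t_lt (y : ℕ → ℂˣ) {d i : ℕ} (hi : i < d) :
    sl2 y d (t i) = algebraMap ℂ (RG ℤ) (y i) := by
  show sl2 y d (mo _) = _
  rw [sl2_mo, Finset.prod_eq_single i, Pi.single_eq_of_ne (i' := Sum.inl d) (by simp; omega),
    Pi.single_eq_of_ne (i' := Sum.inl (d + 1)) (by simp; omega), add_zero, mo_zero,
    Algebra.algebraMap_eq_smul_one]
  · simp
  · intro k _ hk; rw [Pi.single_eq_of_ne (by simpa using hk)]; simp
  · simp [hi]

lemma sl2_single (y : ℕ → ℂˣ) (d : ℕ) (n : ℤ) :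
    sl2 y d (mo (Pi.single (Sum.inl d) n)) = mo n := by
  rw [sl2_mo, Finset.prod_eq_one]
  · simp
  · intro k hk
    rw [Pi.single_eq_of_ne (by simpa using (Finset.mem_range.1 hk).ne)]; simp

lemma sl2_t_succ (y : ℕ → ℂˣ) (d : ℕ) : sl2 y d (t (d + 1)) = mo 1 := by
  show sl2 y d (mo _) = _
  rw [sl2_mo, Finset.prod_eq_one]
  · simp
  · intro k hk
    have := Finset.mem_range.1 hk
    rw [Pi.single_eq_of_ne (by simp; omega)]; simp

lemma u_ne (s : ℂ) : (mo 1 : RG ℤ) - algebraMap ℂ (RG ℤ) s ≠ 0 := by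
  intro h
  have h1 := congrArg (evu 1) h
  have h2 := congrArg (evu (-1)) h
  rw [map_sub, evu_mo, AlgHom.commutes, map_zero] at h1 h2
  simp at h1 h2
  have : (2 : ℂ) = 0 := by linear_combination h1 - h2
  exact two_ne_zero this

lemma sl2_BB {y : ℕ → ℂˣ} {d : ℕ} (hy : ∀ i < d, ∀ i' < d, y i = y i' → i = i') :
    sl2 y d (BB y d) ≠ 0 := by
  have htd : sl2 y d (t d) = mo 1 := sl2_single y d 1
  rw [BB, map_mul, map_prod, map_prod]
  refine mul_ne_zero (Finset.prod_ne_zero_iff.2 fun p hp => ?_)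
    (Finset.prod_ne_zero_iff.2 fun i hi => ?_)
  · obtain ⟨h1, h2, h3⟩ := Finset.mem_offDiag.1 hp
    have h1' := Finset.mem_range.1 h1
    have h2' := Finset.mem_range.1 h2
    rw [map_pow, map_sub, sl2_t_lt y h1', sl2_t_lt y h2', ← map_sub]
    refine pow_ne_zero _ fun h => h3 (hy _ h1' _ h2' (Units.ext ?_))
    have := congrArg (evu 1) h
    rw [AlgHom.commutes, map_zero] at this
    exact sub_eq_zero.1 this
  · have hi' := Finset.mem_range.1 hi
    simp only [map_mul, map_pow, map_sub, sl2_t_lt y hi', htd, sl2_t_succ, AlgHom.commutes]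
    have h1 := u_ne (y i)
    have h2 : algebraMap ℂ (RG ℤ) (y i) - mo 1 ≠ 0 := fun h => h1 (by linear_combination -h)
    exact mul_ne_zero (mul_ne_zero (pow_ne_zero _ h2) (pow_ne_zero _ h2))
      (mul_ne_zero (pow_ne_zero _ h1) (pow_ne_zero _ h1))

/-- the constant of the `Y` lemma -/
noncomputable def KK (y : ℕ → ℂˣ) (d : ℕ) : ℂ :=
  ∏ i ∈ Finset.range d, ((y i : ℂ) * ∏ i' ∈ (Finset.range d).erase i, ((y i : ℂ) - y i') ^ 2)

lemma chi_Th (y : ℕ → ℂˣ) {d : ℕ} (ι : Fin d → ℕ) (z : Fin d → ℂˣ) :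
    chi d y ι z (Th y d d) = KK y d := by
  rw [Th, KK, map_prod]
  refine Finset.prod_congr rfl fun i hi => ?_
  have hi' := Finset.mem_range.1 hi
  rw [map_mul, qq, map_prod, chi_t y ι z hi']
  congr 1
  refine Finset.prod_congr rfl fun i' _ => ?_
  rw [map_pow, map_sub, chi_t y ι z hi', AlgHom.commutes]; rfl

lemma KK_ne {y : ℕ → ℂˣ} {d : ℕ} (hy : ∀ i < d, ∀ i' < d, y i = y i' → i = i') : KK y d ≠ 0 := by
  refine Finset.prod_ne_zero_iff.2 fun i hi => mul_ne_zero (Units.ne_zero _)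
    (Finset.prod_ne_zero_iff.2 fun i' hi' => pow_ne_zero _ fun h => ?_)
  obtain ⟨h1, h2⟩ := Finset.mem_erase.1 hi'
  exact h1 (hy _ (Finset.mem_range.1 hi) _ (Finset.mem_range.1 h2)
    (Units.ext (sub_eq_zero.1 h))).symm

theorem ring_main {c : ℂ} (hc : c ≠ 0) {d : ℕ} {F : FF (d + 1)} (hF : F ≠ 0)
    (hs : ∀ τ, perm τ F = F) : ∃ p : R, tp p = p ∧ Good (d + 2) ∅ p ∧
      Sy (∑ j : Fin (d + 1), res (vl (d + 1) ∘ j.succAbove)
        (HH c (vl (d + 1)) j (d + 2) (p * emb (d + 1) F))) ≠ 0 := by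
  obtain ⟨w, hw, hwF⟩ := exists_inj hF
  set y : ℕ → ℂˣ := fun n => if h : n < d then w (Fin.succ ⟨n, h⟩) else 1 with hy
  have hyk : ∀ k : Fin d, y k = w k.succ := fun k => dif_pos k.2
  have hyi : ∀ i < d, ∀ i' < d, y i = y i' → i = i' := by
    intro i hi i' hi' h
    have h1 := hyk ⟨i, hi⟩
    have h2 := hyk ⟨i', hi'⟩
    simp only at h1 h2
    rw [h1, h2] at h
    simpa using hw h
  set f0 := slice 0 (fun k : Fin d => y k) F with hf0
  have hf0ne : f0 ≠ 0 := by
    intro h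
    apply hwF
    rw [← ev_slice, ← funext hyk, ← hf0, h, map_zero]
  have hu : (mo 1 : RG ℤ) ≠ 0 := by simpa using u_ne 0
  obtain ⟨κ, hκ⟩ := exists_cf0 (mul_ne_zero (mul_ne_zero (pow_ne_zero 4 hu) (sl2_BB hyi)) hf0ne)
  set M : R := mo (Pi.single (Sum.inl d) κ) with hM
  have hMB : tp (M * BB y d) = M * BB y d := by
    rw [map_mul, hM, tp_single, mem_fixS.1 (BB_mem y d _ fun i => mem_fixS.2 (tp_t i))]
  refine ⟨(t d - t (d + 1)) ^ 4 * (Psi y d d * (M * BB y d)), ?_, ?_, ?_⟩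
  · rw [map_mul, map_mul, hMB, mem_fixS.1 (Psi_mem y d d _ fun i _ => mem_fixS.2 (tp_t i)),
      map_pow, map_sub, tp_t, tp_t]
  · have := (Good_p y d).mul (Psi y d d * M)
    convert this using 1; ring
  · intro h
    have h2 := congrArg (ev fun k : Fin d => y k) h
    rw [Sy, map_sum, map_zero] at h2
    have key : ∀ τ : Equiv.Perm (Fin d), ∀ j : Fin (d + 1),
        ev (fun k : Fin d => y k) (perm τ (res (vl (d + 1) ∘ j.succAbove)
          (HH c (vl (d + 1)) j (d + 2)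
            ((t d - t (d + 1)) ^ 4 * (Psi y d d * (M * BB y d)) * emb (d + 1) F))))
          = KK y d * (-2 * c * cf0 (mo κ * (mo 1 ^ 4 * sl2 y d (BB y d) * f0))) := by
      intro τ j
      have e1 : (t d - t (d + 1)) ^ 4 * (Psi y d d * (M * BB y d)) * emb (d + 1) F
          = (t d - t (d + 1)) ^ 4 * (Psi y d d * (M * BB y d * emb (d + 1) F)) := by ring
      have hBb : BB y d ∣ M * BB y d * emb (d + 1) F := (dvd_mul_left _ _).mul_right _
      rw [ev_perm, ev_res y, e1, HH_main c y (vl_inj _) τ.symm j, chi_Th]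
      · congr 2
        have hx : sl y j (fun k => y (τ.symm k)) (x (vl (d + 1) j)) = mo 1 := by
          show sl y j _ (mo _) = _
          rw [sl_mo]
          unfold chE
          rw [Finset.prod_eq_one, Finset.prod_eq_one]
          · simp [vl]
          · intro k _
            have hne : (vl (d + 1) ∘ j.succAbove) k ≠ vl (d + 1) j :=
              fun h => Fin.succAbove_ne j k (Fin.val_injective h)
            rw [Pi.single_eq_of_ne (by simpa using hne)]; simp
          · intro i _; simp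
        have hsub : sl y j (fun k => y (τ.symm k))
            (sub d (vl (d + 1) j) (sub (d + 1) (vl (d + 1) j) (M * BB y d)))
            = sl2 y d (M * BB y d) := by
          have := sl_sub y j (fun k => y (τ.symm k)) (M * BB y d)
          rw [hMB] at this
          exact this
        refine (chi_CT y j _ _).trans ?_
        rw [map_mul, map_pow, hx, map_mul (sub _ _), map_mul (sub _ _), sub_emb, sub_emb,
          map_mul (sl _ _ _), sl_emb, hsub, slice_symm j (fun k : Fin d => y k) τ.symm hs, ← hf0,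
          map_mul (sl2 _ _), hM, sl2_single]
        exact congrArg cf0 (by ring)
      · have := (Good_p y d).mul (Psi y d d * M * emb (d + 1) F)
        convert this using 1; ring
      · intro i hi
        exact (((dvd_mul_right _ _).mul_left _).trans (BB_dvd y hi)).trans hBb
      · intro i hi
        exact (((dvd_mul_left _ _).mul_left _).trans (BB_dvd y hi)).trans hBb
      · intro i hi i' hi' hne
        exact (BB_dvd0 y hi hi' hne).trans hBb
    simp only [map_sum, key, Finset.sum_const, Finset.card_univ, nsmul_eq_mul] at h2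
    refine mul_ne_zero ?_ (mul_ne_zero ?_ (mul_ne_zero (KK_ne hyi)
      (mul_ne_zero (mul_ne_zero (by norm_num) hc) hκ))) h2
    · exact Nat.cast_ne_zero.2 Fintype.card_ne_zero
    · exact Nat.cast_ne_zero.2 Fintype.card_ne_zero

end Pool.Agent.H143Z.Vir
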