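import Pool.Agent.H143Z.Vir.D

set_option autoImplicit false

namespace Pool.Agent.H143Z.Vir

section alg
variable {A : Type} [Ring A] [Algebra ℂ A] (L : ℤ → A)

/-- the Virasoro relations with central charge `c` -/
def Rel (c : ℂ) : Prop := ∀ m n : ℤ, L m * L n - L n * L m
  = ((m - n : ℤ) : ℂ) • L (m + n) + (if m + n = 0 then gam c m else 0) • (1 : A)

def W (l : List ℤ) : A := (l.map L).prod

def wd {n : ℕ} (a : Fin n → ℤ) : A := W L (List.ofFn a)

lemma W_nil : W L [] = 1 := rfl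
lemma W_cons (m : ℤ) (l : List ℤ) : W L (m :: l) = L m * W L l := by simp [W]
lemma W_append (l l' : List ℤ) : W L (l ++ l') = W L l * W L l' := by simp [W]

lemma wd_zero (a : Fin 0 → ℤ) : wd L a = 1 := by simp [wd, W]
lemma wd_succ {n : ℕ} (a : Fin (n + 1) → ℤ) : wd L a = L (a 0) * wd L (fun i => a i.succ) := by
  rw [wd, List.ofFn_succ, W_cons]; rfl

lemma W_eq_wd (l : List ℤ) : W L l = wd L l.get := by rw [wd, List.ofFn_get]

def Fil (d : ℕ) : Submodule ℂ A := Submodule.span ℂ {b | ∃ l : List ℤ, l.length < d ∧ W L l = b}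

lemma Fil_mono {d d' : ℕ} (h : d ≤ d') : Fil L d ≤ Fil L d' :=
  Submodule.span_mono fun _ ⟨l, hl, hb⟩ => ⟨l, by omega, hb⟩

lemma W_mem {d : ℕ} {l : List ℤ} (h : l.length < d) : W L l ∈ Fil L d :=
  Submodule.subset_span ⟨l, h, rfl⟩

lemma wd_mem {d n : ℕ} (h : n < d) (a : Fin n → ℤ) : wd L a ∈ Fil L d :=
  W_mem L (by simpa using h)

lemma Fil_map {d : ℕ} {S : Submodule ℂ A} (f : A →ₗ[ℂ] A)
    (h : ∀ l : List ℤ, l.length < d → f (W L l) ∈ S) {b : A} (hb : b ∈ Fil L d) : f b ∈ S := by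
  have : Fil L d ≤ S.comap f := Submodule.span_le.2 fun _ ⟨l, hl, hb⟩ => hb ▸ h l hl
  exact this hb

lemma L_mul_mem {d : ℕ} (m : ℤ) {b : A} (hb : b ∈ Fil L d) : L m * b ∈ Fil L (d + 1) :=
  Fil_map L (LinearMap.mulLeft ℂ (L m)) (fun l hl => by
    rw [LinearMap.mulLeft_apply, ← W_cons]
    exact W_mem L (by simpa using hl)) hb

variable {L}

lemma W_perm {c : ℂ} (hL : Rel L c) {l l' : List ℤ} (h : l.Perm l') :
    W L l - W L l' ∈ Fil L l.length := by
  induction h with
  | nil => simp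
  | cons m _ ih =>
    rw [W_cons, W_cons, ← mul_sub]
    exact L_mul_mem L m ih
  | swap m n l =>
    rw [W_cons, W_cons, W_cons, W_cons, ← mul_assoc, ← mul_assoc, ← sub_mul, hL, add_mul,
      smul_mul_assoc, smul_mul_assoc, one_mul, ← W_cons]
    exact add_mem (Submodule.smul_mem _ _ (W_mem L (by simp)))
      (Submodule.smul_mem _ _ (W_mem L (by simp)))
  | @trans l1 l2 l3 h1 _ ih1 ih2 =>
    rw [← h1.length_eq] at ih2
    have := add_mem ih1 ih2
    rwa [sub_add_sub_cancel] at this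

variable (L)

def ad (n : ℤ) : A →ₗ[ℂ] A := LinearMap.mulLeft ℂ (L n) - LinearMap.mulRight ℂ (L n)

lemma ad_apply (n : ℤ) (b : A) : ad L n b = L n * b - b * L n := rfl

lemma ad_mul (n : ℤ) (a b : A) : ad L n (a * b) = ad L n a * b + a * ad L n b := by
  simp only [ad_apply]; noncomm_ring

variable {L}

lemma ad_wd {c : ℂ} (hL : Rel L c) (n : ℤ) (d : ℕ) : ∀ a : Fin (d + 1) → ℤ,
    ad L n (wd L a) = ∑ j, ((n - a j : ℤ) : ℂ) • wd L (a + Pi.single j n)
      + ∑ j, (if n + a j = 0 then gam c n else 0) • wd L (a ∘ j.succAbove) := by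
  induction d with
  | zero =>
    intro a
    rw [wd_succ, wd_zero, mul_one, ad_apply, hL, Fin.sum_univ_one, Fin.sum_univ_one, wd_succ,
      wd_zero, wd_zero, mul_one]
    simp [add_comm]
  | succ d ih =>
    intro a
    rw [wd_succ, ad_mul, ih, ad_apply, hL, Fin.sum_univ_succ (n := d + 1),
      Fin.sum_univ_succ (n := d + 1)]
    have e1 : wd L (a + Pi.single 0 n) = L (n + a 0) * wd L fun i => a i.succ := by
      rw [wd_succ]
      congr 2
      · simp [add_comm]
      · funext i; simp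
    have e2 : ∀ j : Fin (d + 1), wd L (a + Pi.single j.succ n)
        = L (a 0) * wd L ((fun i => a i.succ) + Pi.single j n) := by
      intro j
      rw [wd_succ]
      congr 2
      · simp [Pi.single_eq_of_ne (Fin.succ_ne_zero j).symm]
      · funext i; simp [Pi.single_apply]
    have e3 : wd L (a ∘ (0 : Fin (d + 2)).succAbove) = wd L fun i => a i.succ := by
      congr 1
    have e4 : ∀ j : Fin (d + 1), wd L (a ∘ j.succ.succAbove)
        = L (a 0) * wd L ((fun i => a i.succ) ∘ j.succAbove) := by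
      intro j
      rw [wd_succ]
      congr 2
      funext i; simp
    simp only [e1, e2, e3, e4, mul_add, add_mul, Finset.mul_sum, mul_smul_comm, smul_mul_assoc,
      one_mul]
    abel

lemma ad_wd_mod {c : ℂ} (hL : Rel L c) (n : ℤ) {d : ℕ} (a : Fin d → ℤ) :
    ad L n (wd L a) - ∑ j, ((n - a j : ℤ) : ℂ) • wd L (a + Pi.single j n) ∈ Fil L d := by
  cases d with
  | zero => simp [wd_zero, ad_apply]
  | succ d =>
    rw [ad_wd hL, add_sub_cancel_left]
    exact Submodule.sum_mem _ fun j _ => Submodule.smul_mem _ _ (wd_mem L (by omega) _)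

lemma ad_mem {c : ℂ} (hL : Rel L c) (n : ℤ) {d : ℕ} {b : A} (hb : b ∈ Fil L d) :
    ad L n b ∈ Fil L d := by
  refine Fil_map L _ (fun l hl => ?_) hb
  rw [W_eq_wd]
  have h1 := Fil_mono L hl.le (ad_wd_mod hL n l.get)
  have h2 : ∑ j, ((n - l.get j : ℤ) : ℂ) • wd L (l.get + Pi.single j n) ∈ Fil L d :=
    Submodule.sum_mem _ fun j _ => Submodule.smul_mem _ _ (wd_mem L hl _)
  simpa using add_mem h1 h2

variable (L)

def AD : ℕ → Ex → (A →ₗ[ℂ] A)
  | 0, _ => LinearMap.id
  | r + 1, e => AD r e ∘ₗ ad L (e (Sum.inl r))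

lemma AD_succ (r : ℕ) (e : Ex) (b : A) : AD L (r + 1) e b = AD L r e (ad L (e (Sum.inl r)) b) := rfl

lemma AD_congr (r : ℕ) {e e' : Ex} (h : ∀ i < r, e (Sum.inl i) = e' (Sum.inl i)) :
    AD L r e = AD L r e' := by
  induction r with
  | zero => rfl
  | succ r ih =>
    show AD L r e ∘ₗ _ = AD L r e' ∘ₗ _
    rw [ih fun i hi => h i (by omega), h r (by omega)]

noncomputable def Phi {d : ℕ} (ι : Fin d → ℕ) (r : ℕ) : R →ₗ[ℂ] A :=
  lin fun e => AD L r e (wd L fun k => e (Sum.inr (ι k)))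

lemma Phi_mo {d : ℕ} (ι : Fin d → ℕ) (r : ℕ) (e : Ex) :
    Phi L ι r (mo e) = AD L r e (wd L fun k => e (Sum.inr (ι k))) := lin_mo _ _

variable {L}

lemma AD_mem {c : ℂ} (hL : Rel L c) {d : ℕ} (r : ℕ) (e : Ex) :
    ∀ b ∈ Fil L d, AD L r e b ∈ Fil L d := by
  induction r with
  | zero => intro b hb; exact hb
  | succ r ih => intro b hb; exact ih _ (ad_mem hL _ hb)

lemma Phi_ES {d : ℕ} {ι : Fin d → ℕ} (hι : Function.Injective ι) (r : ℕ) (e : Ex) :
    Phi L ι r (ES ι r (mo e)) = AD L r e (∑ j, ((e (Sum.inl r) - e (Sum.inr (ι j)) : ℤ) : ℂ) •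
      wd L ((fun k => e (Sum.inr (ι k))) + Pi.single j (e (Sum.inl r)))) := by
  rw [ES_apply, map_sum, map_sum]
  refine Finset.sum_congr rfl fun j _ => ?_
  rw [E_mo, map_smul, map_smul, Phi_mo, AD_congr L r fun i hi => subE_inl r (ι j) e hi.ne]
  congr 3
  funext k
  simp [subE_inr, Pi.single_apply, hι.eq_iff]

lemma Phi_succ {c : ℂ} (hL : Rel L c) {d : ℕ} {ι : Fin (d + 1) → ℕ} (hι : Function.Injective ι)
    (r : ℕ) (a : R) : Phi L ι (r + 1) a = Phi L ι r (ES ι r a)
      + ∑ j, Phi L (ι ∘ j.succAbove) r (C c r (ι j) a) := by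
  induction a using ind with
  | h0 => simp
  | hadd a b ha hb => simp only [map_add, ha, hb, Finset.sum_add_distrib]; abel
  | hs s a ha => simp only [map_smul, ha, smul_add, Finset.smul_sum]
  | h1 e =>
    rw [Phi_mo, AD_succ, ad_wd hL, map_add, Phi_ES hι]
    congr 1
    rw [map_sum]
    refine Finset.sum_congr rfl fun j _ => ?_
    rw [C_mo, map_smul, map_smul, Phi_mo, AD_congr L r fun i hi => subE_inl r (ι j) e hi.ne]
    congr 3
    funext k
    have hne : ι (j.succAbove k) ≠ ι j := fun h => Fin.succAbove_ne j k (hι h)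
    simp [subE_inr, hne]

lemma Phi_succ_mod {c : ℂ} (hL : Rel L c) {d : ℕ} {ι : Fin d → ℕ} (hι : Function.Injective ι)
    (r : ℕ) (a : R) : Phi L ι (r + 1) a - Phi L ι r (ES ι r a) ∈ Fil L d := by
  induction a using ind with
  | h0 => simp
  | hadd a b ha hb =>
    have := add_mem ha hb
    simp only [map_add]
    convert this using 1; abel
  | hs s a ha =>
    have := Submodule.smul_mem _ s ha
    simpa only [map_smul, smul_sub] using this
  | h1 e =>
    rw [Phi_mo, AD_succ, Phi_ES hι, ← map_sub]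
    exact AD_mem hL r e _ (ad_wd_mod hL _ _)

lemma Phi_one {c : ℂ} (hL : Rel L c) {d : ℕ} {ι : Fin d → ℕ} (hι : Function.Injective ι)
    (r : ℕ) : ∀ a : R, Phi L ι r a - Phi L ι 0 (EE ι r a) ∈ Fil L d := by
  induction r with
  | zero => intro a; simp [EE_zero]
  | succ r ih =>
    intro a
    have := add_mem (Phi_succ_mod hL hι r a) (ih (ES ι r a))
    rw [sub_add_sub_cancel] at this
    exact this

lemma Phi_two {c : ℂ} (hL : Rel L c) {d : ℕ} {ι : Fin (d + 1) → ℕ} (hι : Function.Injective ι)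
    (r : ℕ) : ∀ a : R, Phi L ι r a - Phi L ι 0 (EE ι r a)
      - ∑ j, Phi L (ι ∘ j.succAbove) 0 (HH c ι j r a) ∈ Fil L d := by
  induction r with
  | zero => intro a; simp [EE_zero, HH]
  | succ r ih =>
    intro a
    have h1 := ih (ES ι r a)
    have h2 : ∑ j, (Phi L (ι ∘ j.succAbove) r (C c r (ι j) a) - Phi L (ι ∘ j.succAbove) 0
        (EE (ι ∘ j.succAbove) r (C c r (ι j) a))) ∈ Fil L d :=
      Submodule.sum_mem _ fun j _ => Phi_one hL (sa_inj hι j) r _
    have h3 : ∀ j, HH c ι j (r + 1) a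
        = HH c ι j r (ES ι r a) + EE (ι ∘ j.succAbove) r (C c r (ι j) a) := fun j => rfl
    have h4 : EE ι (r + 1) a = EE ι r (ES ι r a) := rfl
    rw [Phi_succ hL hι, h4]
    simp only [h3, map_add, Finset.sum_add_distrib]
    rw [Finset.sum_sub_distrib] at h2
    convert add_mem h1 h2 using 1
    abel

variable (L)

noncomputable def mu (d : ℕ) : FF d →ₗ[ℂ] A := lin (wd L)

lemma mu_mo {d : ℕ} (a : Fin d → ℤ) : mu L d (mo a) = wd L a := lin_mo _ _

lemma Phi_zero {d : ℕ} (ι : Fin d → ℕ) (a : R) : Phi L ι 0 a = mu L d (res ι a) := by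
  induction a using ind with
  | h0 => simp
  | hadd a b ha hb => simp only [map_add, ha, hb]
  | hs s a ha => simp only [map_smul, ha]
  | h1 e => rw [Phi_mo, res_mo, mu_mo]; rfl

noncomputable def adp (r : ℕ) : R →ₗ[ℂ] (A →ₗ[ℂ] A) := lin (AD L r)

lemma adp_mo (r : ℕ) (e : Ex) : adp L r (mo e) = AD L r e := lin_mo _ _

lemma Phi_adp (n r : ℕ) (p : R) (F : FF n) :
    Phi L (vl n) r (tp p * emb n F) = adp L r p (mu L n F) := by
  induction p using ind with
  | h0 => simp
  | hadd a b ha hb => simp only [map_add, add_mul, LinearMap.add_apply, ha, hb]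
  | hs s a ha => simp only [map_smul, smul_mul_assoc, LinearMap.smul_apply, ha]
  | h1 e =>
    induction F using ind with
    | h0 => simp
    | hadd a b ha hb => simp only [map_add, mul_add, ha, hb]
    | hs s a ha => simp only [map_smul, mul_smul_comm, ha]
    | h1 a =>
      rw [tp_mo, emb_mo, ← mo_add, Phi_mo, adp_mo, mu_mo,
        AD_congr L r (e' := e) fun i _ => by simp]
      congr 2
      funext k
      simp [vl]

lemma smul_mem_I (I : TwoSidedIdeal A) (s : ℂ) {b : A} (hb : b ∈ I) : s • b ∈ I := by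
  rw [Algebra.smul_def]; exact I.mul_mem_left _ _ hb

lemma AD_mem_I (I : TwoSidedIdeal A) (r : ℕ) (e : Ex) : ∀ b ∈ I, AD L r e b ∈ I := by
  induction r with
  | zero => intro b hb; exact hb
  | succ r ih =>
    intro b hb
    exact ih _ (I.sub_mem (I.mul_mem_left _ _ hb) (I.mul_mem_right _ _ hb))

lemma adp_mem_I (I : TwoSidedIdeal A) (r : ℕ) (p : R) {b : A} (hb : b ∈ I) : adp L r p b ∈ I := by
  induction p using ind with
  | h0 => simp
  | hadd a a' ha ha' => rw [map_add]; exact I.add_mem ha ha'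
  | hs s a ha => rw [map_smul]; exact smul_mem_I I s ha
  | h1 e => rw [adp_mo]; exact AD_mem_I L I r e b hb

variable {L}

lemma adp_Fil {c : ℂ} (hL : Rel L c) {r d : ℕ} {p : R} (hp : tp p = p) (hG : Good r ∅ p)
    (hd : d < r) {b : A} (hb : b ∈ Fil L (d + 1)) : adp L r p b ∈ Fil L d := by
  refine Fil_map L _ (fun l hl => ?_) hb
  rw [W_eq_wd, ← mu_mo, ← Phi_adp, hp]
  have h1 := Phi_one hL (vl_inj l.length) r (p * emb _ (mo l.get))
  rw [EE_V _ r ∅ _ (hG.mul' _) (by omega), map_zero, sub_zero] at h1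
  exact Fil_mono L (by omega) h1

lemma mu_perm {c : ℂ} (hL : Rel L c) {n : ℕ} (τ : Equiv.Perm (Fin n)) (F : FF n) :
    mu L n (perm τ F) - mu L n F ∈ Fil L n := by
  induction F using ind with
  | h0 => simp
  | hadd a b ha hb =>
    have := add_mem ha hb
    simp only [map_add]
    convert this using 1; abel
  | hs s a ha =>
    have := Submodule.smul_mem _ s ha
    simpa only [map_smul, smul_sub] using this
  | h1 e =>
    rw [perm_mo, mu_mo, mu_mo]
    have := W_perm hL (τ.ofFn_comp_perm e)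
    rwa [List.length_ofFn] at this

lemma mu_Sy {c : ℂ} (hL : Rel L c) {n : ℕ} (F : FF n) :
    mu L n (Sy F) - (Fintype.card (Equiv.Perm (Fin n)) : ℂ) • mu L n F ∈ Fil L n := by
  have : ∑ τ : Equiv.Perm (Fin n), (mu L n (perm τ F) - mu L n F) ∈ Fil L n :=
    Submodule.sum_mem _ fun τ _ => mu_perm hL τ F
  rw [Finset.sum_sub_distrib, Finset.sum_const, Finset.card_univ, ← Nat.cast_smul_eq_nsmul ℂ] at this
  rwa [Sy, map_sum]

lemma Fil_zero {b : A} (hb : b ∈ Fil L 0) : b = 0 := by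
  have : Fil L 0 = ⊥ := by
    rw [Fil, Submodule.span_eq_bot]
    rintro _ ⟨l, hl, _⟩
    omega
  rwa [this, Submodule.mem_bot] at hb

lemma step_P {c : ℂ} (hc : c ≠ 0) (hL : Rel L c) (I : TwoSidedIdeal A) (d : ℕ) :
    ∀ F : FF d, Sy F ≠ 0 → ∀ b ∈ Fil L d, mu L d F + b ∈ I → (1 : A) ∈ I := by
  induction d with
  | zero =>
    intro F hF b hb hI
    have key : ∀ F : FF 0, F = ev 1 F • mo 0 := by
      intro F
      induction F using ind with
      | h0 => simp
      | hadd a b ha hb => rw [map_add, add_smul, ← ha, ← hb]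
      | hs s a ha => rw [map_smul, smul_assoc, ← ha]
      | h1 e => rw [ev_mo, Subsingleton.elim e 0]; simp
    have h0 : ev 1 F ≠ 0 := by
      intro h
      apply hF
      rw [key F, h, zero_smul]; simp [Sy]
    rw [Fil_zero hb, add_zero, key F, map_smul, mu_mo, wd_zero] at hI
    have := smul_mem_I I (ev 1 F)⁻¹ hI
    rwa [smul_smul, inv_mul_cancel₀ h0, one_smul] at this
  | succ d ih =>
    intro F hF b hb hI
    set N : ℂ := (Fintype.card (Equiv.Perm (Fin (d + 1))) : ℂ) with hN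
    obtain ⟨p, hp, hG, hne⟩ := ring_main hc hF fun τ => perm_Sy τ F
    have hb' : N • b - (mu L _ (Sy F) - N • mu L _ F) ∈ Fil L (d + 1) :=
      sub_mem (Submodule.smul_mem _ _ hb) (mu_Sy hL F)
    set b' := N • b - (mu L _ (Sy F) - N • mu L _ F) with hb'def
    have hI' : mu L _ (Sy F) + b' ∈ I := by
      have := smul_mem_I I N hI
      convert this using 1
      rw [hb'def, smul_add]; abel
    have h1 := adp_mem_I L I (d + 2) p hI'
    rw [map_add, ← Phi_adp, hp] at h1
    have h2 := Phi_two hL (vl_inj (d + 1)) (d + 2) (p * emb _ (Sy F))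
    rw [EE_V _ _ ∅ _ (hG.mul' _) (by omega), map_zero, sub_zero] at h2
    simp only [Phi_zero] at h2
    rw [← map_sum] at h2
    refine ih _ hne _ (add_mem h2 (adp_Fil hL hp hG (by omega) hb')) ?_
    convert h1 using 1
    abel

lemma exists_top {d : ℕ} {a : A} (ha : a ∈ Fil L (d + 1)) :
    ∃ F : FF d, a - mu L d F ∈ Fil L d := by
  induction ha using Submodule.span_induction with
  | mem x hx =>
    obtain ⟨l, hl, rfl⟩ := hx
    by_cases h : l.length < d
    · exact ⟨0, by simpa using W_mem L h⟩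
    · obtain rfl : d = l.length := by omega
      exact ⟨mo l.get, by rw [mu_mo, ← W_eq_wd]; simp⟩
  | zero => exact ⟨0, by simp⟩
  | add x y _ _ hx hy =>
    obtain ⟨F, hF⟩ := hx
    obtain ⟨G, hG⟩ := hy
    refine ⟨F + G, ?_⟩
    convert add_mem hF hG using 1
    rw [map_add]; abel
  | smul s x _ hx =>
    obtain ⟨F, hF⟩ := hx
    refine ⟨s • F, ?_⟩
    have := Submodule.smul_mem _ s hF
    rwa [map_smul, ← smul_sub]

lemma step_Q {c : ℂ} (hc : c ≠ 0) (hL : Rel L c) (I : TwoSidedIdeal A) (d : ℕ) :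
    ∀ a ∈ Fil L d, a ∈ I → a ≠ 0 → (1 : A) ∈ I := by
  induction d with
  | zero => intro a ha _ h; exact absurd (Fil_zero ha) h
  | succ d ih =>
    intro a ha hI h
    obtain ⟨F, hF⟩ := exists_top ha
    by_cases hS : Sy F = 0
    · have h1 := mu_Sy hL F
      rw [hS, map_zero, zero_sub, neg_mem_iff] at h1
      have hN : (Fintype.card (Equiv.Perm (Fin d)) : ℂ) ≠ 0 :=
        Nat.cast_ne_zero.2 Fintype.card_ne_zero
      have h2 := (Submodule.smul_mem_iff _ hN).1 h1
      have h3 := add_mem hF h2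
      rw [sub_add_cancel] at h3
      exact ih a h3 hI h
    · exact step_P hc hL I d F hS _ hF (by rwa [add_sub_cancel])

variable (L)

/-- the span of all words -/
def Sp : Submodule ℂ A := Submodule.span ℂ (Set.range (W L))

lemma Sp_mul {a b : A} (ha : a ∈ Sp L) (hb : b ∈ Sp L) : a * b ∈ Sp L := by
  induction ha using Submodule.span_induction with
  | mem x hx =>
    obtain ⟨l, rfl⟩ := hx
    induction hb using Submodule.span_induction with
    | mem y hy =>
      obtain ⟨l', rfl⟩ := hy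
      rw [← W_append]
      exact Submodule.subset_span ⟨_, rfl⟩
    | zero => simp
    | add x y _ _ hx hy => rw [mul_add]; exact add_mem hx hy
    | smul s x _ hx => rw [mul_smul_comm]; exact Submodule.smul_mem _ _ hx
  | zero => simp
  | add x y _ _ hx hy => rw [add_mul]; exact add_mem hx hy
  | smul s x _ hx => rw [smul_mul_assoc]; exact Submodule.smul_mem _ _ hx

lemma Sp_Fil {a : A} (ha : a ∈ Sp L) : ∃ d, a ∈ Fil L d := by
  induction ha using Submodule.span_induction with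
  | mem x hx =>
    obtain ⟨l, rfl⟩ := hx
    exact ⟨l.length + 1, W_mem L (by omega)⟩
  | zero => exact ⟨0, zero_mem _⟩
  | add x y _ _ hx hy =>
    obtain ⟨d, hd⟩ := hx
    obtain ⟨d', hd'⟩ := hy
    exact ⟨d + d', add_mem (Fil_mono L (by omega) hd) (Fil_mono L (by omega) hd')⟩
  | smul s x _ hx =>
    obtain ⟨d, hd⟩ := hx
    exact ⟨d, Submodule.smul_mem _ _ hd⟩

variable {L}

theorem simple_of_rel [Nontrivial A] {c : ℂ} (hc : c ≠ 0) (hL : Rel L c)
    (hsp : ∀ a : A, a ∈ Sp L) : IsSimpleRing A := by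
  refine IsSimpleRing.of_eq_bot_or_eq_top fun I => ?_
  by_cases h : I = ⊥
  · exact Or.inl h
  · right
    have : ∃ a ∈ I, a ≠ 0 := by
      by_contra h'
      push Not at h'
      exact h (eq_bot_iff.2 fun a ha => (TwoSidedIdeal.mem_bot A).2 (h' a ha))
    obtain ⟨a, ha, hne⟩ := this
    obtain ⟨d, hd⟩ := Sp_Fil L (hsp a)
    exact (TwoSidedIdeal.one_mem_iff I).1 (step_Q hc hL I d a hd ha hne)

end alg

end Pool.Agent.H143Z.Vir
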